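import Pool.Agent.Q259.PK.Low

/-!
Sums of a prime and an iterated prime.
-/

set_option autoImplicit false

namespace Pool.Agent.Q259.PK

open Finset Filter Topology
open Pool.Agent.H373R2.T7 (pz mem_pz Vz lamz nuB PerB Vz_pos lamz_nonneg Vz_le_one)

/-- the `k`-th prime -/
noncomputable def np (k : ℕ) : ℕ := Nat.nth Nat.Prime (k - 1)

lemma np_le_iff {k t : ℕ} (hk : 0 < k) : np k ≤ t ↔ k ≤ Nat.primeCounting t := by
  unfold np
  have h := Nat.lt_nth_iff_count_lt (p := Nat.Prime) Nat.infinite_setOf_prime (a := k - 1) (b := t + 1)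
  rw [← Nat.lt_succ_iff, Nat.succ_eq_add_one, ← h]
  unfold Nat.primeCounting Nat.primeCounting'
  omega

lemma np_prime (k : ℕ) : (np k).Prime := Nat.prime_nth_prime _

lemma np_pos (k : ℕ) : 0 < np k := (np_prime k).pos

lemma np_inj {k l : ℕ} (hk : 0 < k) (hl : 0 < l) (h : np k = np l) : k = l := by
  have := Nat.nth_injective Nat.infinite_setOf_prime h
  omega

lemma it_pos (m : ℕ) {u : ℕ} (hu : 0 < u) : 0 < np^[m] u := by
  cases m with
  | zero => exact hu
  | succ m =>
    rw [Function.iterate_succ_apply']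
    exact np_pos _

lemma it_le_iff (m : ℕ) {u t : ℕ} (hu : 0 < u) :
    np^[m] u ≤ t ↔ u ≤ Nat.primeCounting^[m] t := by
  induction m generalizing t with
  | zero => simp
  | succ m ih =>
    rw [Function.iterate_succ_apply', np_le_iff (it_pos m hu), ih, Function.iterate_succ_apply]

lemma it_inj (m : ℕ) {u v : ℕ} (hu : 0 < u) (hv : 0 < v) (h : np^[m] u = np^[m] v) : u = v := by
  induction m with
  | zero => exact h
  | succ m ih =>
    rw [Function.iterate_succ_apply', Function.iterate_succ_apply'] at h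
    exact ih (np_inj (it_pos m hu) (it_pos m hv) h)

lemma it_ge (m : ℕ) {u : ℕ} (hu : 0 < u) : u ≤ np^[m] u := by
  rw [← Nat.sub_add_cancel (it_pos m hu)]
  by_contra h
  push Not at h
  have h1 := (it_le_iff m hu (t := np^[m] u)).1 le_rfl
  have h2 : ∀ (m t : ℕ), Nat.primeCounting^[m] t ≤ t := by
    intro m
    induction m with
    | zero => exact fun t => le_rfl
    | succ m ih =>
      intro t
      rw [Function.iterate_succ_apply]
      refine (ih _).trans ?_
      rw [← pz_card]
      exact Pool.Agent.H373R2.T7.card_pz_le t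
  have h3 := h2 m (np^[m] u)
  omega

lemma pi_tend : Tendsto Nat.primeCounting atTop atTop := by
  obtain ⟨x0, h0⟩ := pnt (1 / 2) (by norm_num)
  obtain ⟨x1, h1⟩ := log_pow_small 2 1
  rw [tendsto_atTop]
  intro b
  filter_upwards [eventually_ge_atTop (x0 + x1 + 3 + b ^ 2)] with x hx
  have h2 := (h0 x (by omega)).1
  have h3 := h1 x (by omega)
  rw [pow_one] at h3
  rw [pz_card] at h2
  have hlog : 0 < Real.log x := Real.log_pos (by exact_mod_cast (show 1 < x by omega))
  have hx0 : (0 : ℝ) < x := by exact_mod_cast (show 0 < x by omega)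
  have hs : Real.sqrt x * Real.sqrt x = x := Real.mul_self_sqrt hx0.le
  have hsb : (b : ℝ) ≤ Real.sqrt x := by
    apply Real.le_sqrt_of_sq_le
    exact_mod_cast (show b ^ 2 ≤ x by omega)
  have h4 : Real.sqrt x ≤ (1 - 1 / 2) * (x / Real.log x) := by
    rw [← mul_div_assoc, le_div_iff₀ hlog]
    have := Real.sqrt_nonneg x
    nlinarith
  exact_mod_cast hsb.trans (h4.trans h2)

lemma pi_it_low (m : ℕ) : ∃ t0 : ℕ, ∀ t : ℕ, t0 ≤ t →
    (t : ℝ) / (2 * Real.log t) ^ m ≤ (Nat.primeCounting^[m] t : ℕ) := by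
  induction m with
  | zero =>
    refine ⟨0, fun t _ => ?_⟩
    simp
  | succ m ih =>
    obtain ⟨t0, h0⟩ := ih
    obtain ⟨x0, h1⟩ := pnt (1 / 2) (by norm_num)
    obtain ⟨t1, h2⟩ := eventually_atTop.1 (pi_tend.eventually_ge_atTop (t0 + 2))
    refine ⟨t1 + x0 + 3, fun t ht => ?_⟩
    have h3 := h2 t (by omega)
    rw [Function.iterate_succ_apply]
    have h4 := h0 (Nat.primeCounting t) (by omega)
    refine le_trans ?_ h4
    have h5 := (h1 t (by omega)).1
    rw [pz_card] at h5
    have hlog : 0 < Real.log t := Real.log_pos (by exact_mod_cast (show 1 < t by omega))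
    set s := Nat.primeCounting t with hs
    have hst : s ≤ t := by
      rw [hs, ← pz_card]
      exact Pool.Agent.H373R2.T7.card_pz_le t
    have hlogs : 0 < Real.log s := Real.log_pos (by exact_mod_cast (show 1 < s by omega))
    have hlogst : Real.log s ≤ Real.log t := by
      apply Real.log_le_log
      · exact_mod_cast (show 0 < s by omega)
      · exact_mod_cast hst
    have ht0 : (0 : ℝ) < t := by exact_mod_cast (show 0 < t by omega)
    calc (t : ℝ) / (2 * Real.log t) ^ (m + 1) = (1 - 1 / 2) * (t / Real.log t) / (2 * Real.log t) ^ m := by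
          rw [pow_succ]
          field_simp
          ring
      _ ≤ s / (2 * Real.log t) ^ m := by gcongr
      _ ≤ s / (2 * Real.log s) ^ m := by gcongr

end Pool.Agent.Q259.PK
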