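import Pool.Agent.Q259.PK.Iter

/-!
Sums of a prime and an iterated prime: the counting.
-/

set_option autoImplicit false

namespace Pool.Agent.Q259.PK

open Finset Filter Topology
open Pool.Agent.H373R2.T7 (pz mem_pz Vz lamz nuB PerB Vz_pos lamz_nonneg Vz_le_one)

/-- the pairs of indices -/
def SS (U V : Set ℕ) (m n : ℕ) : Set (ℕ × ℕ) := {w : ℕ × ℕ | 0 < w.1 ∧ 0 < w.2 ∧ w.1 ∈ U ∧ w.2 ∈ V ∧
  np^[m] w.1 ≠ np^[1] w.2 ∧ np^[m] w.1 + np^[1] w.2 = 2 * n}

lemma SS_fin (U V : Set ℕ) (m n : ℕ) : (SS U V m n).Finite := by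
  apply Set.Finite.subset (Finset.finite_toSet (Finset.range (2 * n + 1) ×ˢ Finset.range (2 * n + 1)))
  rintro w ⟨h1, h2, _, _, _, h3⟩
  rw [mem_coe, mem_product, mem_range, mem_range]
  have h4 := it_ge m h1
  have h5 := it_ge 1 h2
  omega

lemma rep_odd' {A B : Finset ℕ} {x N : ℕ} (hA : A ⊆ pz x) (hB : B ⊆ pz x) (hN : ¬ Even N) :
    rep A B N ≤ 2 := by
  unfold rep
  have hsub : (A ×ˢ B).filter (fun r => r.1 + r.2 = N ∧ r.1 ≠ r.2) ⊆ {(2, N - 2), (N - 2, 2)} := by
    intro r hr
    rw [mem_filter, mem_product] at hr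
    have h1 := (mem_pz.1 (hA hr.1.1)).2
    have h2 := (mem_pz.1 (hB hr.1.2)).2
    rw [mem_insert, mem_singleton]
    rcases h1.eq_two_or_odd' with h3 | h3
    · left
      exact Prod.ext h3 (by simp only; omega)
    · rcases h2.eq_two_or_odd' with h4 | h4
      · right
        exact Prod.ext (by simp only; omega) h4
      · exfalso
        apply hN
        rw [← hr.2.1]
        exact h3.add_odd h4
  exact (card_le_card hsub).trans (card_insert_le _ _)

theorem iter_main (a C : ℕ) (δ ε : ℝ) (hδ : 0 < δ) (hε : 0 < ε) (U V : Set ℕ)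
    (hU : ∀ᶠ t : ℕ in atTop, (t : ℝ) / Real.log t ^ C ≤ Set.ncard {u ∈ U | 1 ≤ u ∧ u ≤ t})
    (hV : ∀ᶠ t : ℕ in atTop, δ * t ≤ Set.ncard {v ∈ V | 1 ≤ v ∧ v ≤ t}) :
    ∃ c : ℝ, 0 < c ∧ ∀ᶠ x : ℕ in atTop,
    (2 * δ / Real.exp Real.eulerMascheroniConstant - ε) * x / Real.log (Real.log (Real.log x)) ≤
      Set.ncard {n : ℕ | n ≤ x ∧ c * x / Real.log x ^ (a + C + 2) ≤ (SS U V (a + 1) n).ncard} := by
  classical
  have hVle : ∀ t : ℕ, Set.ncard {v ∈ V | 1 ≤ v ∧ v ≤ t} ≤ t := by
    intro t
    have h1 : {v ∈ V | 1 ≤ v ∧ v ≤ t} ⊆ ((Icc 1 t : Finset ℕ) : Set ℕ) := by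
      rintro v ⟨_, h1, h2⟩
      rw [mem_coe, mem_Icc]
      exact ⟨h1, h2⟩
    have h2 := Set.ncard_le_ncard h1 (Finset.finite_toSet _)
    rw [Set.ncard_coe_finset, Nat.card_Icc] at h2
    omega
  have hδ1 : δ ≤ 1 := by
    obtain ⟨t, ht, ht1⟩ := (hV.and (eventually_ge_atTop 1)).exists
    have h1 : δ * t ≤ 1 * t := by
      rw [one_mul]
      exact ht.trans (by exact_mod_cast hVle t)
    exact le_of_mul_le_mul_right h1 (by exact_mod_cast ht1)
  set γ := Real.exp (-Real.eulerMascheroniConstant) with hγ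
  have hγ0 : 0 < γ := Real.exp_pos _
  have hγ1 : γ ≤ 1 := by
    rw [hγ]
    have := Real.one_half_lt_eulerMascheroniConstant
    rw [← Real.exp_zero]
    exact Real.exp_le_exp.2 (by linarith)
  set η : ℝ := min (1 / 4) (ε / 6) with hη
  have hη0 : 0 < η := lt_min (by norm_num) (by positivity)
  have hη1 : η ≤ 1 / 4 := min_le_left _ _
  have hηε : η ≤ ε / 6 := min_le_right _ _
  set a' : ℕ := a + C + 1 with ha'
  obtain ⟨c0, hc0, y0, hy0, x0, h0⟩ := lower a' δ η hδ hδ1 hη0 (by linarith)
  obtain ⟨t1, ht1⟩ := pi_it_low (a + 1)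
  obtain ⟨t2, ht2⟩ := eventually_atTop.1 hU
  obtain ⟨t3, ht3⟩ := eventually_atTop.1 hV
  obtain ⟨x4, hx4⟩ := pnt (1 / 2) (by norm_num)
  have hTpi : Tendsto (fun t : ℕ => Nat.primeCounting^[a + 1] t) atTop atTop := pi_tend.iterate _
  obtain ⟨t5, ht5⟩ := eventually_atTop.1 (hTpi.eventually_ge_atTop (t2 + 3))
  obtain ⟨t6, ht6⟩ := eventually_atTop.1 (pi_tend.eventually_ge_atTop t3)
  set D : ℝ := 2 ^ (a + 3) / η with hD
  have hD0 : 0 < D := by positivity
  -- large `x`
  have hL1 := log_tend.eventually_ge_atTop (max D (max 3 (Real.exp (y0 + 1))))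
  have hL3 : Tendsto (fun x : ℕ => Real.log (Real.log (Real.log x))) atTop atTop :=
    Real.tendsto_log_atTop.comp (Real.tendsto_log_atTop.comp log_tend)
  have hL3' := hL3.eventually_ge_atTop (max 1 (Real.log (2 * a') / η))
  have hxt := tendsto_natCast_atTop_atTop (R := ℝ)
  have hxb := hxt.eventually_ge_atTop ((t1 + t5 + 10 : ℝ) / η)
  set c : ℝ := c0 * (η / 2 ^ (a + 2)) / 2 ^ (a + C + 2) with hc
  have hc00 : 0 < c := by positivity
  obtain ⟨x7, hx7⟩ := log_pow_small (6 / c) (a + C + 2)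
  refine ⟨c, hc00, ?_⟩
  filter_upwards [hL1, hL3', hxb, hxt.eventually_ge_atTop (1 / η ^ 2),
    eventually_ge_atTop (x0 + x4 + t6 + x7 + 10)] with x hLx hLLx hxη hxη2 hxx
  have hLD : D ≤ Real.log x := (le_max_left _ _).trans hLx
  have hLr := (le_max_right _ _).trans hLx
  have hL3x : 3 ≤ Real.log x := (le_max_left _ _).trans hLr
  have hLy : Real.exp (y0 + 1) ≤ Real.log x := (le_max_right _ _).trans hLr
  have hLL1 : 1 ≤ Real.log (Real.log (Real.log x)) := (le_max_left _ _).trans hLLx
  have hLL2 : Real.log (2 * a') / η ≤ Real.log (Real.log (Real.log x)) := (le_max_right _ _).trans hLLx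
  have hxpos : (0 : ℝ) < x := by exact_mod_cast (show 0 < x by omega)
  set x' : ℕ := ⌊2 * (x : ℝ) / (1 + η)⌋₊ with hx'
  have hx'1 : (x' : ℝ) ≤ 2 * x / (1 + η) := Nat.floor_le (by positivity)
  have hx'2 : 2 * (x : ℝ) / (1 + η) < x' + 1 := Nat.lt_floor_add_one _
  have hx'3 : 2 * (1 - η) * x ≤ x' := by
    have h1 : 2 * (x : ℝ) / (1 + η) = 2 * (1 - η) * x + 2 * η ^ 2 / (1 + η) * x := by
      field_simp
      ring
    have h2 : 1 ≤ 2 * η ^ 2 / (1 + η) * x := by
      have h3 : 1 ≤ η ^ 2 * x := by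
        rw [div_le_iff₀ (by positivity)] at hxη2
        linarith
      have h4 : 1 ≤ 2 / (1 + η) := by
        rw [le_div_iff₀ (by positivity)]
        linarith
      calc (1 : ℝ) = 1 * 1 := by ring
        _ ≤ 2 / (1 + η) * (η ^ 2 * x) := by gcongr
        _ = _ := by ring
    linarith
  have hxx' : (x : ℝ) ≤ x' := by nlinarith only [hx'3, hη1, hη0, hxpos]
  have hx'x : x ≤ x' := by exact_mod_cast hxx'
  have hx'2x : (x' : ℝ) ≤ 2 * x := by
    refine hx'1.trans ?_
    rw [div_le_iff₀ (by positivity)]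
    nlinarith only [hη0, hxpos]
  have hx'pos : (0 : ℝ) < x' := by linarith
  have hlogx' : Real.log x ≤ Real.log x' := Real.log_le_log hxpos hxx'
  have hlogx'2 : Real.log x' ≤ 2 * Real.log x := by
    calc Real.log x' ≤ Real.log ((x : ℝ) ^ 2) := by
          apply Real.log_le_log hx'pos
          have : (10 : ℝ) ≤ x := by exact_mod_cast (show 10 ≤ x by omega)
          nlinarith only [this, hx'2x]
      _ = _ := by
          rw [Real.log_pow]
          norm_num
  set L := Real.log x' with hL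
  have hL3' : 3 ≤ L := by linarith
  -- the parameter `y`
  set y : ℝ := a' * Real.log L with hy
  have ha'1 : (1 : ℝ) ≤ a' := by
    rw [ha']
    push_cast
    have : (0 : ℝ) ≤ (a : ℝ) + C := by positivity
    linarith
  have hlogL1 : 1 ≤ Real.log L := by
    rw [Real.le_log_iff_exp_le (by linarith)]
    have := Real.exp_one_lt_d9
    linarith
  have hyy0 : y0 ≤ y := by
    have h1 : y0 + 1 ≤ Real.log L := by
      rw [Real.le_log_iff_exp_le (by linarith)]
      linarith
    nlinarith only [h1, ha'1, hy, hlogL1, hy0]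
  have hexpy : Real.exp (-y) = (L ^ a')⁻¹ := by
    rw [Real.exp_neg, hy, Real.exp_nat_mul, Real.exp_log (by linarith)]
  -- the sets
  set s : ℕ := ⌊η * (x' : ℝ)⌋₊ with hs
  have hs1 : (s : ℝ) ≤ η * x' := Nat.floor_le (by positivity)
  have hs2 : η * (x' : ℝ) < s + 1 := Nat.lt_floor_add_one _
  have hsbig : (t1 + t5 + 9 : ℝ) < s := by
    have h1 : (t1 + t5 + 10 : ℝ) ≤ η * x := by
      rw [div_le_iff₀ hη0] at hxη
      linarith
    have h2 : η * (x : ℝ) ≤ η * x' := by gcongr
    linarith
  have hsbig' : t1 + t5 + 9 < s := by exact_mod_cast hsbig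
  have hs3 : η / 2 * x' ≤ s := by
    have : (0 : ℝ) ≤ t1 + t5 := by positivity
    linarith
  set T := Nat.primeCounting^[a + 1] s with hT
  have hT1 := ht1 s (by omega)
  have hT2 : t2 + 3 ≤ T := ht5 s (by omega)
  have hTU := ht2 T (by omega)
  set A : Finset ℕ := ((Icc 1 (Nat.primeCounting x')).filter (fun v => v ∈ V)).image (np^[1]) with hA
  set B : Finset ℕ := ((Icc 1 T).filter (fun u => u ∈ U)).image (np^[a + 1]) with hB
  have hAc : ((A.card : ℕ) : ℝ) = Set.ncard {v ∈ V | 1 ≤ v ∧ v ≤ Nat.primeCounting x'} := by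
    rw [hA, card_image_of_injOn, ← Set.ncard_coe_finset]
    · congr 2
      ext v
      rw [mem_coe, mem_filter, mem_Icc]
      exact and_comm
    · intro u hu v hv h
      rw [mem_coe, mem_filter, mem_Icc] at hu hv
      exact it_inj 1 (by omega) (by omega) h
  have hBc : ((B.card : ℕ) : ℝ) = Set.ncard {u ∈ U | 1 ≤ u ∧ u ≤ T} := by
    rw [hB, card_image_of_injOn, ← Set.ncard_coe_finset]
    · congr 2
      ext v
      rw [mem_coe, mem_filter, mem_Icc]
      exact and_comm
    · intro u hu v hv h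
      rw [mem_coe, mem_filter, mem_Icc] at hu hv
      exact it_inj (a + 1) (by omega) (by omega) h
  have hAx : A ⊆ pz x' := by
    intro p hp
    obtain ⟨v, hv, rfl⟩ := mem_image.1 hp
    rw [mem_filter, mem_Icc] at hv
    rw [mem_pz]
    refine ⟨(it_le_iff 1 (by omega)).2 hv.1.2, ?_⟩
    exact np_prime v
  have hBs : ∀ p ∈ B, p ≤ s ∧ p.Prime := by
    intro p hp
    obtain ⟨v, hv, rfl⟩ := mem_image.1 hp
    rw [mem_filter, mem_Icc] at hv
    refine ⟨(it_le_iff (a + 1) (by omega)).2 hv.1.2, ?_⟩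
    rw [Function.iterate_succ_apply']
    exact np_prime _
  have hsx' : s ≤ x' := by
    have : (s : ℝ) ≤ x' := by nlinarith only [hs1, hη1, hx'pos]
    exact_mod_cast this
  have hBx : B ⊆ pz x' := by
    intro p hp
    obtain ⟨h1, h2⟩ := hBs p hp
    exact mem_pz.2 ⟨h1.trans hsx', h2⟩
  have hAd : δ * (pz x').card ≤ A.card := by
    rw [hAc, pz_card]
    exact ht3 _ (ht6 x' (by omega))
  have hTs : (T : ℝ) ≤ x' := by
    have h2 : ∀ (m t : ℕ), Nat.primeCounting^[m] t ≤ t := by
      intro m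
      induction m with
      | zero => exact fun t => le_rfl
      | succ m ih =>
        intro t
        rw [Function.iterate_succ_apply]
        refine (ih _).trans ?_
        rw [← pz_card]
        exact Pool.Agent.H373R2.T7.card_pz_le t
    exact_mod_cast (h2 (a + 1) s).trans hsx'
  have hBlow : η / 2 ^ (a + 2) * (x' / L ^ (a + C + 1)) ≤ B.card := by
    rw [hBc]
    refine le_trans ?_ hTU
    have hTpos : (1 : ℝ) < T := by exact_mod_cast (show 1 < T by omega)
    have hlogT : 0 < Real.log T := Real.log_pos hTpos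
    have hlogTL : Real.log T ≤ L := Real.log_le_log (by linarith) hTs
    have hspos : (1 : ℝ) < s := by exact_mod_cast (show 1 < s by omega)
    have hlogs : 0 < Real.log s := Real.log_pos hspos
    have hlogsL : Real.log s ≤ L := Real.log_le_log (by linarith) (by exact_mod_cast hsx')
    calc η / 2 ^ (a + 2) * (x' / L ^ (a + C + 1)) = (η / 2 * x') / (2 * L) ^ (a + 1) / L ^ C := by
          rw [mul_pow, show a + C + 1 = (a + 1) + C by ring, pow_add L]
          field_simp
          ring
      _ ≤ s / (2 * Real.log s) ^ (a + 1) / Real.log T ^ C := by gcongr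
      _ ≤ T / Real.log T ^ C := by gcongr
  have hBd : Real.exp (-y) * (pz x').card ≤ B.card := by
    refine le_trans ?_ hBlow
    have h1 := (hx4 x' (by omega)).2
    rw [← hL] at h1
    calc Real.exp (-y) * (pz x').card ≤ (L ^ a')⁻¹ * ((1 + 1 / 2) * (x' / L)) := by
          rw [hexpy]
          gcongr
      _ = (1 + 1 / 2) / L * (x' / L ^ (a + C + 1)) := by
          rw [ha']
          field_simp
      _ ≤ η / 2 ^ (a + 2) * (x' / L ^ (a + C + 1)) := by
          apply mul_le_mul_of_nonneg_right _ (by positivity)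
          rw [div_le_iff₀ (by linarith)]
          have h2 : 2 ^ (a + 3) / η ≤ L := by linarith
          rw [div_le_iff₀ hη0] at h2
          have h3 : (2 : ℝ) ^ (a + 3) = 2 * 2 ^ (a + 2) := by ring
          have h4 : (0 : ℝ) < 2 ^ (a + 2) := by positivity
          rw [div_mul_eq_mul_div, le_div_iff₀ h4]
          nlinarith only [h2, h3, h4, hη0, hL3']
  have hmain := h0 x' (by omega) A B δ y hAx hBx le_rfl hAd hyy0 le_rfl hBd
  -- comparison of the main terms
  have hlogy0 : 0 < Real.log y := Real.log_pos (by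
    have : (1 : ℝ) < Real.log L := by
      rw [Real.lt_log_iff_exp_lt (by linarith)]
      have := Real.exp_one_lt_d9
      linarith
    nlinarith only [this, ha'1, hy])
  have hlogy : Real.log y ≤ (1 + η) * Real.log (Real.log (Real.log x)) := by
    have hlx0 : 0 < Real.log x := by linarith
    have hllx : 1 ≤ Real.log (Real.log x) := by
      rw [Real.le_log_iff_exp_le hlx0]
      have := Real.exp_one_lt_d9
      linarith
    have h1 : Real.log L ≤ 2 * Real.log (Real.log x) := by
      calc Real.log L ≤ Real.log (2 * Real.log x) := Real.log_le_log (by linarith) hlogx'2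
        _ = Real.log 2 + Real.log (Real.log x) := Real.log_mul (by norm_num) hlx0.ne'
        _ ≤ _ := by
            have := Real.log_two_lt_d9
            linarith
    have h2 : y ≤ 2 * a' * Real.log (Real.log x) := by
      rw [hy]
      nlinarith only [h1, ha'1]
    have h3 : Real.log y ≤ Real.log (2 * a') + Real.log (Real.log (Real.log x)) := by
      rw [← Real.log_mul (by positivity) (by positivity)]
      apply Real.log_le_log _ h2
      rw [hy]
      positivity
    rw [div_le_iff₀ hη0] at hLL2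
    linarith
  have hcomp : (2 * δ / Real.exp Real.eulerMascheroniConstant - ε) * x /
      Real.log (Real.log (Real.log x)) ≤ (1 - η) * (δ * x' * (γ / Real.log y)) := by
    have h1 : 2 * δ / Real.exp Real.eulerMascheroniConstant = 2 * δ * γ := by
      rw [hγ, Real.exp_neg]
      ring
    rw [h1]
    have hLLp : 0 < Real.log (Real.log (Real.log x)) := by linarith
    calc (2 * δ * γ - ε) * x / Real.log (Real.log (Real.log x))
        ≤ ((1 - η) * (1 - η) / (1 + η)) * (2 * δ * γ) * x / Real.log (Real.log (Real.log x)) := by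
          apply div_le_div_of_nonneg_right _ hLLp.le
          apply mul_le_mul_of_nonneg_right _ hxpos.le
          have h2 : 1 - 3 * η ≤ (1 - η) * (1 - η) / (1 + η) := by
            rw [le_div_iff₀ (by positivity)]
            nlinarith only [hη0, hη1]
          have h3 : 0 < 2 * δ * γ := by positivity
          have h4 : 2 * δ * γ ≤ 2 := by nlinarith only [hδ, hδ1, hγ0, hγ1]
          nlinarith only [h2, h3, h4, hηε, hη0, hε]
      _ = (1 - η) * (δ * (2 * (1 - η) * x) * (γ / ((1 + η) * Real.log (Real.log (Real.log x))))) := by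
          field_simp
      _ ≤ (1 - η) * (δ * x' * (γ / Real.log y)) := by
          have : 0 ≤ 1 - η := by linarith
          gcongr
  refine (hcomp.trans hmain).trans ?_
  -- the numbers with many representations
  have hthr : c * x / Real.log x ^ (a + C + 2) ≤ c0 * B.card / L := by
    calc c * x / Real.log x ^ (a + C + 2)
        = c0 * (η / 2 ^ (a + 2)) * x / (2 * Real.log x) ^ (a + C + 2) := by
          rw [hc, mul_pow]
          field_simp
      _ ≤ c0 * (η / 2 ^ (a + 2)) * x' / L ^ (a + C + 2) := by gcongr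
      _ = c0 * (η / 2 ^ (a + 2) * (x' / L ^ (a + C + 1))) / L := by
          rw [pow_succ L (a + C + 1)]
          field_simp
      _ ≤ _ := by gcongr
  have hthr2 : 2 < c * x / Real.log x ^ (a + C + 2) := by
    have h1 := hx7 x (by omega)
    have h2 : Real.sqrt x ≤ x := by
      rw [Real.sqrt_le_left hxpos.le]
      have : (1 : ℝ) ≤ x := by exact_mod_cast (show 1 ≤ x by omega)
      nlinarith only [this]
    have h3 : 0 < Real.log x ^ (a + C + 2) := pow_pos (by linarith) _
    rw [lt_div_iff₀ h3]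
    have h4 : 6 / c * Real.log x ^ (a + C + 2) ≤ x := h1.trans h2
    have h5 : c * (6 / c * Real.log x ^ (a + C + 2)) ≤ c * x := mul_le_mul_of_nonneg_left h4 hc00.le
    have h6 : c * (6 / c * Real.log x ^ (a + C + 2)) = 6 * Real.log x ^ (a + C + 2) := by
      field_simp
    linarith
  have hmap : ∀ N ∈ (Icc 1 (2 * x')).filter (fun N => c0 * B.card / L ≤ (rep A B N : ℝ)),
      Even N ∧ N / 2 ≤ x ∧ c * x / Real.log x ^ (a + C + 2) ≤ (SS U V (a + 1) (N / 2)).ncard := by
    intro N hN
    rw [mem_filter, mem_Icc] at hN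
    have hr2 : (2 : ℝ) < rep A B N := by linarith [hN.2]
    have hr2' : 2 < rep A B N := by exact_mod_cast hr2
    have hev : Even N := by
      by_contra hodd
      have := rep_odd' hAx hBx hodd
      omega
    obtain ⟨n, hn⟩ := hev
    have hn2 : N / 2 = n := by omega
    refine ⟨⟨n, hn⟩, ?_, ?_⟩
    · obtain ⟨r, hr⟩ := card_pos.1 (show 0 < rep A B N by omega)
      rw [mem_filter, mem_product] at hr
      have h1 := (mem_pz.1 (hAx hr.1.1)).1
      have h2 := (hBs _ hr.1.2).1
      have h3 : (N : ℝ) ≤ 2 * x := by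
        rw [← hr.2.1]
        push_cast
        have h4 : (r.1 : ℝ) ≤ x' := by exact_mod_cast h1
        have h5 : (r.2 : ℝ) ≤ s := by exact_mod_cast h2
        have h6 : (1 + η) * x' ≤ 2 * x := by
          rw [le_div_iff₀ (by positivity)] at hx'1
          linarith
        linarith
      have h4 : N ≤ 2 * x := by exact_mod_cast h3
      omega
    · rw [hn2]
      refine le_trans (hthr.trans hN.2) ?_
      have h1 : (((A ×ˢ B).filter (fun r => r.1 + r.2 = N ∧ r.1 ≠ r.2) : Finset (ℕ × ℕ)) :
          Set (ℕ × ℕ)) ⊆ (fun w : ℕ × ℕ => (np^[1] w.2, np^[a + 1] w.1)) '' SS U V (a + 1) n := by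
        intro r hr
        rw [mem_coe, mem_filter, mem_product] at hr
        obtain ⟨v, hv, hv2⟩ := mem_image.1 hr.1.1
        obtain ⟨u, hu, hu2⟩ := mem_image.1 hr.1.2
        rw [mem_filter, mem_Icc] at hu hv
        refine ⟨(u, v), ⟨by simp only; omega, by simp only; omega, hu.2, hv.2, ?_, ?_⟩, ?_⟩
        · simp only
          rw [hv2, hu2]
          exact fun h => hr.2.2 h.symm
        · simp only
          rw [hv2, hu2]
          omega
        · simp only
          rw [hv2, hu2]
      have h2 := Set.ncard_le_ncard h1 ((SS_fin U V (a + 1) n).image _)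
      rw [Set.ncard_coe_finset] at h2
      have h3 := Set.ncard_image_le (f := fun w : ℕ × ℕ => (np^[1] w.2, np^[a + 1] w.1))
        (SS_fin U V (a + 1) n)
      exact_mod_cast h2.trans h3
  have hfin : {n : ℕ | n ≤ x ∧ c * x / Real.log x ^ (a + C + 2) ≤ (SS U V (a + 1) n).ncard}.Finite :=
    (Set.finite_Iic x).subset fun n hn => hn.1
  have hcard : ((Icc 1 (2 * x')).filter (fun N => c0 * B.card / L ≤ (rep A B N : ℝ))).card ≤
      Set.ncard {n : ℕ | n ≤ x ∧ c * x / Real.log x ^ (a + C + 2) ≤ (SS U V (a + 1) n).ncard} := by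
    rw [← Set.ncard_coe_finset]
    apply Set.ncard_le_ncard_of_injOn (fun N => N / 2) (ht := hfin)
    · intro N hN
      obtain ⟨_, h1, h2⟩ := hmap N (mem_coe.1 hN)
      exact ⟨h1, h2⟩
    · intro N hN N' hN' he
      obtain ⟨h1, _, _⟩ := hmap N (mem_coe.1 hN)
      obtain ⟨h2, _, _⟩ := hmap N' (mem_coe.1 hN')
      simp only at he
      rw [Nat.even_iff] at h1 h2
      omega
  exact_mod_cast hcard

end Pool.Agent.Q259.PK
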