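import Pool.Agent.Q259.PK.Mom2
import Pool.Agent.Helper923.PNT
import Pool.Agent.H305R2.MertensE

/-!
Tools: the prime number theorem, Mertens' theorem, pigeonhole, Hölder.
-/

set_option autoImplicit false

namespace Pool.Agent.Q259.PK

open Finset Filter Topology
open Pool.Agent.H373R2.T7 (pz mem_pz Vz lamz nuB PerB Vz_pos lamz_nonneg Vz_le_one)

lemma pz_card (x : ℕ) : (pz x).card = Nat.primeCounting x := by
  unfold Nat.primeCounting Nat.primeCounting'
  rw [Nat.count_eq_card_filter_range]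
  congr 1
  ext m
  rw [mem_pz, mem_filter, mem_range]
  constructor
  · rintro ⟨h1, h2⟩
    exact ⟨by omega, h2⟩
  · rintro ⟨h1, h2⟩
    exact ⟨by omega, h2⟩

lemma log_tend : Tendsto (fun N : ℕ => Real.log (N : ℝ)) atTop atTop :=
  Real.tendsto_log_atTop.comp (tendsto_natCast_atTop_atTop (R := ℝ))

/-- the prime number theorem -/
theorem pnt (η : ℝ) (hη : 0 < η) : ∃ x0 : ℕ, ∀ x : ℕ, x0 ≤ x →
    (1 - η) * (x / Real.log x) ≤ (pz x).card ∧ ((pz x).card : ℝ) ≤ (1 + η) * (x / Real.log x) := by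
  have h := Pool.Agent.Helper923.PNT.pi_tendsto.comp (tendsto_natCast_atTop_atTop (R := ℝ))
  have h1 := (Metric.tendsto_atTop.1 h) η hη
  obtain ⟨N, hN⟩ := h1
  refine ⟨max N 3, fun x hx => ?_⟩
  have h2 := hN x ((le_max_left _ _).trans hx)
  have hx3 : 3 ≤ x := (le_max_right _ _).trans hx
  simp only [Function.comp, Nat.floor_natCast] at h2
  rw [Real.dist_eq, abs_lt, ← pz_card] at h2
  have hx0 : (0 : ℝ) < x := by exact_mod_cast (show 0 < x by omega)
  have hlog : 0 < Real.log x := Real.log_pos (by exact_mod_cast (show 1 < x by omega))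
  have e1 : ((pz x).card : ℝ) = ((pz x).card : ℝ) * Real.log x / x * (x / Real.log x) := by
    field_simp
  have h3 : 0 ≤ x / Real.log x := by positivity
  constructor
  · rw [e1]
    apply mul_le_mul_of_nonneg_right _ h3
    linarith
  · rw [e1]
    apply mul_le_mul_of_nonneg_right _ h3
    linarith

/-- the primes near the ends of the interval -/
theorem ends (m : ℕ) (hm : 2 ≤ m) (η : ℝ) (hη : 0 < η) (hη1 : η ≤ 1) : ∃ x0 : ℕ, ∀ x : ℕ, x0 ≤ x →
    ((pz (x / m)).card : ℝ) + ((pz x).card - (pz (x - x / m)).card) ≤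
      (5 / m + 2 * η) * (x / Real.log x) := by
  obtain ⟨x1, h1⟩ := pnt η hη
  have hm0 : (0 : ℝ) < m := by exact_mod_cast (show 0 < m by omega)
  refine ⟨max (4 * m ^ 2) (2 * m * (x1 + 2)), fun x hx => ?_⟩
  have hx1 : 4 * m ^ 2 ≤ x := (le_max_left _ _).trans hx
  have hx2 : 2 * m * (x1 + 2) ≤ x := (le_max_right _ _).trans hx
  set h := x / m with hh
  have hhx : h ≤ x := Nat.div_le_self _ _
  have hh1 : x1 + 2 ≤ h := by
    rw [hh, Nat.le_div_iff_mul_le (by omega)]
    nlinarith
  have hh2 : h * m ≤ x := Nat.div_mul_le_self x m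
  have hh3 : 2 * h ≤ x := by nlinarith
  have hx0 : (0 : ℝ) < x := by
    have : 0 < x := by nlinarith
    exact_mod_cast this
  have hhR : (h : ℝ) ≤ x / m := by
    rw [le_div_iff₀ hm0]
    exact_mod_cast hh2
  have hlogh : 0 < Real.log h := Real.log_pos (by exact_mod_cast (show 1 < h by omega))
  have hlogx : 0 < Real.log x := Real.log_pos (by exact_mod_cast (show 1 < x by omega))
  have hsq : x ≤ h * h := by
    have h2 : x < m * (h + 1) := by
      rw [hh]
      exact Nat.lt_mul_div_succ x (by omega)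
    have h3 : m + 1 ≤ h := by
      rw [hh, Nat.le_div_iff_mul_le (by omega)]
      nlinarith
    nlinarith
  have hlog2 : Real.log x ≤ 2 * Real.log h := by
    have : (x : ℝ) ≤ (h : ℝ) ^ 2 := by
      rw [sq]
      exact_mod_cast hsq
    calc Real.log x ≤ Real.log ((h : ℝ) ^ 2) := Real.log_le_log hx0 this
      _ = _ := by
          rw [Real.log_pow]
          norm_num
  have ha := (h1 h (by omega)).2
  have hb := (h1 x (by omega)).2
  have hc := (h1 (x - h) (by omega)).1
  have e1 : (1 + η) * (h / Real.log h) ≤ (4 / m) * (x / Real.log x) := by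
    have h4 : h / Real.log h ≤ 2 * (x / m) / Real.log x := by
      rw [div_le_div_iff₀ hlogh hlogx]
      have h5 : 0 ≤ x / (m : ℝ) := by positivity
      nlinarith
    calc (1 + η) * (h / Real.log h) ≤ 2 * (2 * (x / m) / Real.log x) := by
          apply mul_le_mul (by linarith) h4 (by positivity) (by norm_num)
      _ = _ := by ring
  have e2 : (1 - η) * (((1 : ℝ) - 1 / m) * (x / Real.log x)) ≤ (pz (x - h)).card := by
    refine le_trans ?_ hc
    apply mul_le_mul_of_nonneg_left _ (by linarith)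
    have h6 : ((x - h : ℕ) : ℝ) = x - h := by
      rw [Nat.cast_sub hhx]
    have h7 : (1 : ℝ) < ((x - h : ℕ) : ℝ) := by exact_mod_cast (show 1 < x - h by omega)
    have hlogd : 0 < Real.log ((x - h : ℕ) : ℝ) := Real.log_pos h7
    have hlogd2 : Real.log ((x - h : ℕ) : ℝ) ≤ Real.log x :=
      Real.log_le_log (by linarith) (by exact_mod_cast Nat.sub_le x h)
    rw [← mul_div_assoc, div_le_div_iff₀ hlogx hlogd]
    have h8 : (1 - 1 / (m : ℝ)) * x ≤ ((x - h : ℕ) : ℝ) := by
      rw [h6]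
      have : (1 - 1 / (m : ℝ)) * x = x - x / m := by ring
      rw [this]
      linarith
    have h9 : 0 ≤ (1 - 1 / (m : ℝ)) * x := by
      apply mul_nonneg _ hx0.le
      rw [sub_nonneg, div_le_one hm0]
      exact_mod_cast (show 1 ≤ m by omega)
    nlinarith
  have h10 : 0 ≤ x / Real.log x := by positivity
  have h11 : (1 + η) * (x / Real.log x) - (1 - η) * (((1 : ℝ) - 1 / m) * (x / Real.log x)) ≤
      (1 / m + 2 * η) * (x / Real.log x) := by
    have h12 : (1 + η) * (x / Real.log x) - (1 - η) * (((1 : ℝ) - 1 / m) * (x / Real.log x)) =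
        (1 / m + 2 * η - η / m) * (x / Real.log x) := by ring
    rw [h12]
    apply mul_le_mul_of_nonneg_right _ h10
    have : 0 ≤ η / m := by positivity
    linarith
  have h13 : (5 / (m : ℝ) + 2 * η) * (x / Real.log x) = (4 / m) * (x / Real.log x) +
      (1 / m + 2 * η) * (x / Real.log x) := by ring
  rw [h13]
  linarith

/-- the weight of a dense set of primes away from the ends -/
theorem theta_low (δ ρ : ℝ) (hδ : 0 < δ) (hρ : 0 < ρ) (hρ1 : ρ ≤ 1) :
    ∃ m : ℕ, 2 ≤ m ∧ ∃ x0 : ℕ, ∀ x : ℕ, x0 ≤ x → ∀ (A : Finset ℕ) (α : ℝ), A ⊆ pz x → δ ≤ α →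
    α * (pz x).card ≤ A.card →
    α ≤ 1 ∧ (1 - ρ) * α * x ≤ ∑ p ∈ A.filter (fun p => x / m < p ∧ p ≤ x - x / m), Real.log p := by
  obtain ⟨m, hm⟩ := exists_nat_gt (20 / (ρ * δ) + 2)
  have hρδ : 0 < ρ * δ := by positivity
  have hm2 : 2 ≤ m := by
    have : (2 : ℝ) < m := by
      have : 0 ≤ 20 / (ρ * δ) := by positivity
      linarith
    exact_mod_cast this.le
  have hm0 : (0 : ℝ) < m := by exact_mod_cast (show 0 < m by omega)
  set η : ℝ := min 1 (ρ * δ / 12) with hη
  have hη0 : 0 < η := lt_min one_pos (by positivity)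
  obtain ⟨x1, h1⟩ := ends m hm2 η hη0 (min_le_left _ _)
  obtain ⟨x2, h2⟩ := pnt η hη0
  obtain ⟨x3, h3⟩ := eventually_atTop.1 (log_tend.eventually_ge_atTop (max 1 (Real.log (2 * m) * (2 / ρ))))
  refine ⟨m, hm2, max (4 * m) (max x1 (max x2 (max x3 3))), fun x hx A α hA hα hAc => ?_⟩
  have hx4 : 4 * m ≤ x := (le_max_left _ _).trans hx
  have hxr := (le_max_right _ _).trans hx
  have hx1 : x1 ≤ x := (le_max_left _ _).trans hxr
  have hxr2 := (le_max_right _ _).trans hxr
  have hx2 : x2 ≤ x := (le_max_left _ _).trans hxr2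
  have hxr3 := (le_max_right _ _).trans hxr2
  have hx3 : x3 ≤ x := (le_max_left _ _).trans hxr3
  have hx33 : 3 ≤ x := (le_max_right _ _).trans hxr3
  have hL := h3 x hx3
  have hL1 : 1 ≤ Real.log x := (le_max_left _ _).trans hL
  have hLm : Real.log (2 * m) * (2 / ρ) ≤ Real.log x := (le_max_right _ _).trans hL
  have hLm' : Real.log (2 * m) ≤ ρ / 2 * Real.log x := by
    have : ρ / 2 * (Real.log (2 * m) * (2 / ρ)) ≤ ρ / 2 * Real.log x :=
      mul_le_mul_of_nonneg_left hLm (by positivity)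
    calc Real.log (2 * m) = ρ / 2 * (Real.log (2 * m) * (2 / ρ)) := by field_simp
      _ ≤ _ := this
  have hx0 : (0 : ℝ) < x := by exact_mod_cast (show 0 < x by omega)
  have hα0 : 0 < α := lt_of_lt_of_le hδ hα
  have hcard : (A.card : ℝ) ≤ (pz x).card := by exact_mod_cast card_le_card hA
  have hpos : (0 : ℝ) < (pz x).card := by
    have : 2 ∈ pz x := mem_pz.2 ⟨by omega, Nat.prime_two⟩
    exact_mod_cast card_pos.2 ⟨2, this⟩
  have hα1 : α ≤ 1 := by
    have h4 : α * (pz x).card ≤ 1 * (pz x).card := by linarith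
    exact le_of_mul_le_mul_right h4 hpos
  refine ⟨hα1, ?_⟩
  set h := x / m with hh
  have hhx : h ≤ x := Nat.div_le_self _ _
  set A1 := A.filter (fun p => h < p ∧ p ≤ x - h) with hA1
  have hsub : A ⊆ A1 ∪ (pz h ∪ (pz x \ pz (x - h))) := by
    intro p hp
    have hp2 := mem_pz.1 (hA hp)
    rw [mem_union, mem_union, Finset.mem_sdiff, hA1, mem_filter, mem_pz, mem_pz, mem_pz]
    by_cases h5 : p ≤ h
    · exact Or.inr (Or.inl ⟨h5, hp2.2⟩)
    · by_cases h6 : p ≤ x - h
      · exact Or.inl ⟨hp, by omega, h6⟩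
      · exact Or.inr (Or.inr ⟨hp2, fun h7 => h6 h7.1⟩)
  have hsub2 : pz (x - h) ⊆ pz x := by
    intro p hp
    rw [mem_pz] at hp ⊢
    exact ⟨hp.1.trans (Nat.sub_le _ _), hp.2⟩
  have hc1 : (A.card : ℝ) ≤ A1.card + ((pz h).card + ((pz x).card - (pz (x - h)).card)) := by
    have h5 := card_le_card hsub
    have h6 := card_union_le A1 (pz h ∪ (pz x \ pz (x - h)))
    have h7 := card_union_le (pz h) (pz x \ pz (x - h))
    have h8 := card_sdiff_add_card_eq_card hsub2
    have h9 : A.card ≤ A1.card + ((pz h).card + (pz x \ pz (x - h)).card) := by omega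
    have h10 : ((pz x \ pz (x - h)).card : ℝ) = (pz x).card - (pz (x - h)).card := by
      rw [← h8]
      push_cast
      ring
    rw [← h10]
    exact_mod_cast h9
  have hc2 := h1 x hx1
  rw [← hh] at hc2
  have hc3 := (h2 x hx2).1
  have hq : 0 ≤ x / Real.log x := by positivity
  have hηs : η ≤ ρ * δ / 12 := min_le_right _ _
  have hm5 : 5 / (m : ℝ) ≤ ρ * δ / 4 := by
    rw [div_le_iff₀ hm0]
    have h5 : 20 / (ρ * δ) < m := by linarith
    rw [div_lt_iff₀ hρδ] at h5
    nlinarith
  have hc4 : α * (1 - ρ / 2) * (x / Real.log x) ≤ A1.card := by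
    have h5 : α * ((1 - η) * (x / Real.log x)) ≤ α * (pz x).card :=
      mul_le_mul_of_nonneg_left hc3 hα0.le
    have h6 : α * (1 - ρ / 2) * (x / Real.log x) ≤
        α * ((1 - η) * (x / Real.log x)) - (5 / m + 2 * η) * (x / Real.log x) := by
      have h7 : α * ((1 - η) * (x / Real.log x)) - (5 / m + 2 * η) * (x / Real.log x) =
          (α * (1 - η) - 5 / m - 2 * η) * (x / Real.log x) := by ring
      rw [h7]
      apply mul_le_mul_of_nonneg_right _ hq
      have h8 : α * η ≤ η := by nlinarith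
      have h9 : ρ * δ ≤ ρ * α := mul_le_mul_of_nonneg_left hα hρ.le
      nlinarith
    linarith
  have hlogp : ∀ p ∈ A1, (1 - ρ / 2) * Real.log x ≤ Real.log p := by
    intro p hp
    rw [hA1, mem_filter] at hp
    have h5 : (x : ℝ) / (2 * m) ≤ p := by
      rw [div_le_iff₀ (by positivity)]
      have h6 : x < m * (h + 1) := by
        rw [hh]
        exact Nat.lt_mul_div_succ x (by omega)
      have h7 : m * (h + 1) ≤ p * (2 * m) := by nlinarith [hp.2.1]
      have h8 : x ≤ p * (2 * m) := by omega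
      exact_mod_cast h8
    have h6 : Real.log x - Real.log (2 * m) ≤ Real.log p := by
      rw [← Real.log_div hx0.ne' (by positivity)]
      exact Real.log_le_log (by positivity) h5
    linarith
  calc (1 - ρ) * α * x ≤ (1 - ρ / 2) * (1 - ρ / 2) * (α * x) := by
        have : 0 ≤ α * x := by positivity
        nlinarith [sq_nonneg ρ]
    _ = α * (1 - ρ / 2) * (x / Real.log x) * ((1 - ρ / 2) * Real.log x) := by
        have : Real.log x ≠ 0 := by linarith
        field_simp
    _ ≤ A1.card * ((1 - ρ / 2) * Real.log x) := by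
        apply mul_le_mul_of_nonneg_right hc4
        have : 0 ≤ 1 - ρ / 2 := by linarith
        positivity
    _ ≤ ∑ p ∈ A1, Real.log p := by
        rw [← nsmul_eq_mul]
        exact card_nsmul_le_sum _ _ _ hlogp

/-- Hölder's inequality -/
lemma holder_count {q : ℕ} (hq : 1 ≤ q) (X : ℕ) (r : ℕ → ℝ) (hr : ∀ n, 0 ≤ r n) {t S : ℝ}
    (ht : 0 ≤ t) (hS : S ≤ ∑ n ∈ Icc 1 X, r n) (hS0 : 0 ≤ S - t * X) :
    (S - t * X) ^ q ≤ (((Icc 1 X).filter (fun n => t ≤ r n)).card : ℝ) ^ (q - 1) *
      ∑ n ∈ Icc 1 X, r n ^ q := by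
  have h1 : S - t * X ≤ ∑ n ∈ (Icc 1 X).filter (fun n => t ≤ r n), r n := by
    rw [← sum_filter_add_sum_filter_not (Icc 1 X) (fun n => t ≤ r n)] at hS
    have h2 : ∑ n ∈ (Icc 1 X).filter (fun n => ¬ t ≤ r n), r n ≤ t * X := by
      calc ∑ n ∈ (Icc 1 X).filter (fun n => ¬ t ≤ r n), r n
          ≤ ∑ n ∈ (Icc 1 X).filter (fun n => ¬ t ≤ r n), t := by
            apply sum_le_sum
            intro n hn
            exact (not_le.1 (mem_filter.1 hn).2).le
        _ ≤ ∑ n ∈ Icc 1 X, t := sum_le_sum_of_subset_of_nonneg (filter_subset _ _) fun _ _ _ => ht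
        _ = t * X := by
            rw [sum_const, nsmul_eq_mul, Nat.card_Icc, Nat.add_sub_cancel]
            ring
    linarith
  obtain ⟨n, rfl⟩ := Nat.exists_eq_add_of_le' hq
  rw [Nat.add_sub_cancel]
  calc (S - t * X) ^ (n + 1) ≤ (∑ n ∈ (Icc 1 X).filter (fun n => t ≤ r n), r n) ^ (n + 1) :=
        pow_le_pow_left₀ hS0 h1 _
    _ ≤ (((Icc 1 X).filter (fun n => t ≤ r n)).card : ℝ) ^ n *
          ∑ i ∈ (Icc 1 X).filter (fun n => t ≤ r n), r i ^ (n + 1) :=
        pow_sum_le_card_mul_sum_pow (fun i _ => hr i) n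
    _ ≤ _ := by
        apply mul_le_mul_of_nonneg_left _ (by positivity)
        apply sum_le_sum_of_subset_of_nonneg (filter_subset _ _)
        intro i _ _
        exact pow_nonneg (hr i) _

/-- Mertens' theorem for the product `Vz` -/
theorem vz_nat : Tendsto (fun N : ℕ => Vz N * Real.log N) atTop
    (𝓝 (Real.exp (-Real.eulerMascheroniConstant))) := by
  have h := Pool.Agent.H305R2.mertens_three
  have h2 := h.inv₀ (Real.exp_pos _).ne'
  rw [← Real.exp_neg] at h2
  refine h2.congr fun N => ?_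
  rw [inv_div, div_eq_mul_inv, mul_comm]
  congr 1
  unfold Vz
  rw [← prod_inv_distrib]
  have : pz N = (Icc 1 N).filter Nat.Prime := by
    ext p
    rw [mem_pz, mem_filter, mem_Icc]
    constructor
    · rintro ⟨h3, h4⟩
      exact ⟨⟨h4.one_le, h3⟩, h4⟩
    · rintro ⟨⟨_, h3⟩, h4⟩
      exact ⟨h3, h4⟩
  rw [this]
  apply prod_congr rfl
  intro p _
  rw [inv_inv, one_div]

theorem vz_lim (f : ℝ → ℕ) (c1 c2 : ℝ) (hc1 : 0 < c1)
    (hf : ∀ᶠ y in atTop, c1 * y ≤ f y ∧ (f y : ℝ) ≤ c2 * y) :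
    Tendsto (fun y => Vz (f y) * Real.log y) atTop
    (𝓝 (Real.exp (-Real.eulerMascheroniConstant))) := by
  have hfn : Tendsto f atTop atTop := by
    have h1 : Tendsto (fun y => (f y : ℝ)) atTop atTop := by
      refine tendsto_atTop_mono' atTop ?_ (tendsto_id.const_mul_atTop hc1)
      filter_upwards [hf] with y hy
      exact hy.1
    exact tendsto_natCast_atTop_iff.1 h1
  have h1 := vz_nat.comp hfn
  have hlog : Tendsto (fun y : ℝ => Real.log y) atTop atTop := Real.tendsto_log_atTop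
  have h2 : Tendsto (fun y => Real.log (f y) / Real.log y) atTop (𝓝 1) := by
    have hlow : Tendsto (fun y : ℝ => Real.log c1 / Real.log y + 1) atTop (𝓝 1) := by
      have := (tendsto_const_nhds (x := Real.log c1)).div_atTop hlog
      simpa using this.add_const 1
    have hup : Tendsto (fun y : ℝ => Real.log c2 / Real.log y + 1) atTop (𝓝 1) := by
      have := (tendsto_const_nhds (x := Real.log c2)).div_atTop hlog
      simpa using this.add_const 1
    refine tendsto_of_tendsto_of_tendsto_of_le_of_le' hlow hup ?_ ?_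
    · filter_upwards [hf, eventually_gt_atTop (1 : ℝ)] with y hy hy1
      have hly : 0 < Real.log y := Real.log_pos hy1
      have hy0 : 0 < y := by linarith
      rw [le_div_iff₀ hly, add_mul, div_mul_cancel₀ _ hly.ne', one_mul,
        ← Real.log_mul hc1.ne' hy0.ne']
      exact Real.log_le_log (by positivity) hy.1
    · filter_upwards [hf, eventually_gt_atTop (1 : ℝ)] with y hy hy1
      have hly : 0 < Real.log y := Real.log_pos hy1
      have hy0 : 0 < y := by linarith
      have hfy : (0 : ℝ) < f y := lt_of_lt_of_le (by positivity) hy.1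
      have hc2 : 0 < c2 := by
        by_contra hcon
        have h5 : c2 * y ≤ 0 := mul_nonpos_of_nonpos_of_nonneg (not_lt.1 hcon) hy0.le
        linarith [hy.2]
      rw [div_le_iff₀ hly, add_mul, div_mul_cancel₀ _ hly.ne', one_mul,
        ← Real.log_mul hc2.ne' hy0.ne']
      exact Real.log_le_log hfy hy.2
  have h3 : Tendsto (fun y => (Vz (f y) * Real.log (f y)) / (Real.log (f y) / Real.log y)) atTop
      (𝓝 (Real.exp (-Real.eulerMascheroniConstant) / 1)) := h1.div h2 one_ne_zero
  rw [div_one] at h3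
  refine h3.congr' ?_
  filter_upwards [hfn.eventually_gt_atTop 1, eventually_gt_atTop (1 : ℝ)] with y hy hy1
  have h4 : 0 < Real.log (f y) := Real.log_pos (by exact_mod_cast hy)
  have hly : 0 < Real.log y := Real.log_pos hy1
  field_simp

end Pool.Agent.Q259.PK
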