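import Pool.Agent.Q259.PK.Trf
import Pool.Agent.Q259.PK.Tools

/-!
Sums of a dense set of primes and a thin set of primes: the lower bound.
-/

set_option autoImplicit false

namespace Pool.Agent.Q259.PK

open Finset Filter Topology
open Pool.Agent.H373R2.T7 (pz mem_pz Vz lamz nuB PerB Vz_pos lamz_nonneg Vz_le_one)

/-- the number of representations `N = p + p'` with `p ∈ A`, `p' ∈ B`, `p ≠ p'` -/
def rep (A B : Finset ℕ) (N : ℕ) : ℕ := ((A ×ˢ B).filter (fun r => r.1 + r.2 = N ∧ r.1 ≠ r.2)).card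

lemma rep_mono {A A' B B' : Finset ℕ} (hA : A ⊆ A') (hB : B ⊆ B') (N : ℕ) :
    rep A B N ≤ rep A' B' N :=
  card_le_card (filter_subset_filter _ (product_subset_product hA hB))

/-- the number of representations with weight `log p` -/
noncomputable def repL (A B : Finset ℕ) (N : ℕ) : ℝ :=
  ∑ r ∈ (A ×ˢ B).filter (fun r => r.1 + r.2 = N ∧ r.1 ≠ r.2), Real.log r.1

lemma repL_nonneg (A B : Finset ℕ) (N : ℕ) : 0 ≤ repL A B N :=
  sum_nonneg fun _ _ => Real.log_natCast_nonneg _

lemma repL_le_rep {A B : Finset ℕ} {x : ℕ} (hA : A ⊆ pz x) (N : ℕ) :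
    repL A B N ≤ rep A B N * Real.log x := by
  unfold repL rep
  rw [← nsmul_eq_mul]
  apply sum_le_card_nsmul
  intro r hr
  rw [mem_filter, mem_product] at hr
  have := mem_pz.1 (hA hr.1.1)
  apply Real.log_le_log
  · exact_mod_cast this.2.pos
  · exact_mod_cast this.1

lemma repL_le_sum {A B : Finset ℕ} {x : ℕ} (hA : A ⊆ pz x) (N : ℕ) :
    repL A B N ≤ ∑ k ∈ B, ArithmeticFunction.vonMangoldt (N - k) := by
  classical
  have h1 : repL A B N = ∑ r ∈ (A ×ˢ B).filter (fun r => r.1 + r.2 = N ∧ r.1 ≠ r.2),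
      ArithmeticFunction.vonMangoldt (N - r.2) := by
    unfold repL
    apply sum_congr rfl
    intro r hr
    rw [mem_filter, mem_product] at hr
    have h2 := mem_pz.1 (hA hr.1.1)
    rw [show N - r.2 = r.1 by omega, ArithmeticFunction.vonMangoldt_apply_prime h2.2]
  rw [h1]
  rw [← sum_image (s := (A ×ˢ B).filter (fun r => r.1 + r.2 = N ∧ r.1 ≠ r.2))
    (g := fun r : ℕ × ℕ => r.2) (f := fun k => ArithmeticFunction.vonMangoldt (N - k))]
  · apply sum_le_sum_of_subset_of_nonneg
    · intro k hk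
      obtain ⟨r, hr, rfl⟩ := mem_image.1 hk
      rw [mem_filter, mem_product] at hr
      exact hr.1.2
    · intro _ _ _
      exact ArithmeticFunction.vonMangoldt_nonneg
  · intro r hr r' hr' he
    rw [mem_coe, mem_filter] at hr hr'
    have h3 : r.2 = r'.2 := he
    exact Prod.ext (by omega) h3

/-- the total weight -/
lemma sum_repL {A B : Finset ℕ} {u X x : ℕ} (hAx : A ⊆ pz x)
    (h : ∀ p ∈ A, ∀ p' ∈ B, u + 1 ≤ p + p' ∧ p + p' ≤ u + X) :
    B.card * (∑ p ∈ A, Real.log p - Real.log x) ≤ ∑ n ∈ Icc 1 X, repL A B (u + n) := by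
  classical
  have h1 : ∑ n ∈ Icc 1 X, repL A B (u + n) =
      ∑ r ∈ (A ×ˢ B).filter (fun r => r.1 ≠ r.2), Real.log r.1 := by
    unfold repL
    have e1 : ∀ n ∈ Icc 1 X, ∑ r ∈ (A ×ˢ B).filter (fun r => r.1 + r.2 = u + n ∧ r.1 ≠ r.2),
        Real.log (r.1 : ℝ) = ∑ r ∈ ((A ×ˢ B).filter (fun r => r.1 ≠ r.2)).filter
          (fun r => r.1 + r.2 - u = n), Real.log (r.1 : ℝ) := by
      intro n hn
      rw [mem_Icc] at hn
      apply sum_congr _ fun _ _ => rfl
      ext r
      rw [mem_filter, mem_filter, mem_filter]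
      constructor
      · rintro ⟨h2, h3, h4⟩
        exact ⟨⟨h2, h4⟩, by omega⟩
      · rintro ⟨⟨h2, h4⟩, h3⟩
        have := h r.1 (mem_product.1 h2).1 r.2 (mem_product.1 h2).2
        exact ⟨h2, by omega, h4⟩
    rw [sum_congr rfl e1]
    apply sum_fiberwise_of_maps_to
    intro r hr
    rw [mem_filter, mem_product] at hr
    have := h r.1 hr.1.1 r.2 hr.1.2
    rw [mem_Icc]
    omega
  rw [h1, sum_filter, sum_product_right]
  calc (B.card : ℝ) * (∑ p ∈ A, Real.log p - Real.log x)
      = ∑ p' ∈ B, (∑ p ∈ A, Real.log p - Real.log x) := by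
        rw [sum_const, nsmul_eq_mul]
    _ ≤ _ := by
        apply sum_le_sum
        intro p' _
        rw [← sum_filter]
        have h2 := sum_filter_add_sum_filter_not A (fun p => p ≠ p') (fun p => Real.log (p : ℝ))
        have h3 : ∑ p ∈ A.filter (fun p => ¬ p ≠ p'), Real.log (p : ℝ) ≤ Real.log x := by
          by_cases hp : p' ∈ A
          · have : A.filter (fun p => ¬ p ≠ p') = {p'} := by
              ext p
              rw [mem_filter, mem_singleton, not_not]
              constructor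
              · exact fun h => h.2
              · rintro rfl
                exact ⟨hp, rfl⟩
            rw [this, sum_singleton]
            have h4 := mem_pz.1 (hAx hp)
            apply Real.log_le_log
            · exact_mod_cast h4.2.pos
            · exact_mod_cast h4.1
          · have : A.filter (fun p => ¬ p ≠ p') = ∅ := by
              rw [filter_eq_empty_iff]
              intro p hp2
              rw [not_not]
              rintro rfl
              exact hp hp2
            rw [this, sum_empty]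
            exact Real.log_natCast_nonneg _
        linarith

/-- comparison of `log (1 / β)` with `log log x` -/
lemma log_small (K C : ℝ) (hK : 0 ≤ K) (a : ℕ) : ∃ x0 : ℕ, ∀ x : ℕ, x0 ≤ x → ∀ y : ℝ,
    y ≤ a * Real.log (Real.log x) → K * (y + C) + 1 ≤ Real.log x := by
  have h1 : ∀ᶠ x : ℕ in atTop, K * (a * Real.log (Real.log x) + C) + 1 ≤ Real.log x := by
    have h2 : ∀ᶠ L : ℝ in atTop, K * (a * Real.log L + C) + 1 ≤ L := by
      have h3 := Real.isLittleO_log_id_atTop.bound (show (0 : ℝ) < 1 / (2 * (K * a + 1)) by positivity)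
      filter_upwards [h3, eventually_ge_atTop (2 * (K * C + 1)), eventually_ge_atTop 1] with L h4 h5 h6
      have h7 : 0 ≤ Real.log L := Real.log_nonneg h6
      rw [id, Real.norm_of_nonneg h7, Real.norm_of_nonneg (by linarith), one_div, inv_mul_eq_div,
        le_div_iff₀ (by positivity)] at h4
      nlinarith
    exact log_tend.eventually h2
  obtain ⟨x0, h0⟩ := eventually_atTop.1 h1
  refine ⟨x0, fun x hx y hy => ?_⟩
  have := h0 x hx
  have h2 : K * (y + C) ≤ K * (a * Real.log (Real.log x) + C) := by gcongr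
  linarith

/-- **Lower bound for the number of sums.** -/
theorem lower (a : ℕ) (δ ε : ℝ) (hδ : 0 < δ) (hδ1 : δ ≤ 1) (hε : 0 < ε) (hε1 : ε ≤ 1) :
    ∃ c : ℝ, 0 < c ∧ ∃ y0 : ℝ, 1 ≤ y0 ∧ ∃ x0 : ℕ, ∀ x : ℕ, x0 ≤ x →
    ∀ (A B : Finset ℕ) (α y : ℝ), A ⊆ pz x → B ⊆ pz x → δ ≤ α → α * (pz x).card ≤ A.card →
    y0 ≤ y → y ≤ a * Real.log (Real.log x) → Real.exp (-y) * (pz x).card ≤ B.card →
    (1 - ε) * (α * x * (Real.exp (-Real.eulerMascheroniConstant) / Real.log y)) ≤
      (((Icc 1 (2 * x)).filter (fun N => c * B.card / Real.log x ≤ (rep A B N : ℝ))).card : ℝ) := by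
  set γ := Real.exp (-Real.eulerMascheroniConstant) with hγ
  have hγ0 : 0 < γ := Real.exp_pos _
  set ρ : ℝ := ε / 16 with hρ
  have hρ0 : 0 < ρ := by positivity
  have hρ1 : ρ ≤ 1 / 16 := by
    rw [hρ]
    linarith
  obtain ⟨m, hm2, x1, h1⟩ := theta_low δ ρ hδ hρ0 (by linarith)
  have hm0 : (0 : ℝ) < m := by exact_mod_cast (show 0 < m by omega)
  -- the choice of `q`
  have hbase : 1 < (1 - 3 * ρ) / (1 - 4 * ρ) := by
    rw [lt_div_iff₀ (by linarith)]
    linarith
  obtain ⟨n, hn⟩ := pow_unbounded_of_one_lt (4 / δ) hbase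
  set q : ℕ := n + 2 with hq
  have hq2 : 2 ≤ q := by omega
  have hqn : 4 / δ < ((1 - 3 * ρ) / (1 - 4 * ρ)) ^ (q - 1) := by
    rw [show q - 1 = n + 1 by omega]
    exact hn.trans_le (pow_le_pow_right₀ hbase.le (by omega))
  obtain ⟨K, hK1, x2, h2⟩ := prime_moment q (a + 2) hq2 1 one_pos le_rfl
  set C : ℝ := Real.log (2 * (m + 1)) with hC
  have hC0 : 0 ≤ C := Real.log_nonneg (by linarith)
  obtain ⟨x3, h3⟩ := log_small K C (by linarith) a
  obtain ⟨x4, h4⟩ := pnt (1 / 2) (by norm_num)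
  -- Mertens
  have hvz := vz_lim (fun y => ⌈K * (y + C)⌉₊) K (K * (C + 1) + 1) (by linarith) (by
    filter_upwards [eventually_ge_atTop (1 : ℝ)] with y hy
    constructor
    · refine le_trans ?_ (Nat.le_ceil _)
      have : 0 ≤ K * C := by positivity
      linarith
    · have h5 := Nat.ceil_lt_add_one (show 0 ≤ K * (y + C) by positivity)
      have h6 : 0 ≤ K * C := by positivity
      nlinarith only [h5, h6, hy])
  have hvz2 : ∀ᶠ y : ℝ in atTop, (1 - ρ) * γ < Vz ⌈K * (y + C)⌉₊ * Real.log y :=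
    hvz.eventually_const_lt (by nlinarith only [hρ0, hγ0])
  obtain ⟨y1, hy1⟩ := eventually_atTop.1 (hvz2.and (eventually_ge_atTop 3))
  obtain ⟨x5, h5⟩ := eventually_atTop.1 (log_tend.eventually_ge_atTop (max 1 (2 * (m + 1))))
  obtain ⟨x6, h6⟩ := log_pow_small (1 / (ρ * δ)) 1
  refine ⟨ρ * δ / (m + 1), by positivity, max 1 y1, le_max_left _ _,
    x1 + x2 + x3 + x4 + x5 + x6 + 4 + (m + 1) ^ 2, ?_⟩
  intro x hx A B α y hA hB hα hAc hy hya hBc
  obtain ⟨hy2, hy3⟩ := hy1 y ((le_max_right _ _).trans hy)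
  have hlogy : 0 < Real.log y := Real.log_pos (by linarith)
  have hLx := h5 x (by omega)
  have hLx1 : 1 ≤ Real.log x := (le_max_left _ _).trans hLx
  have hLxm : 2 * ((m : ℝ) + 1) ≤ Real.log x := (le_max_right _ _).trans hLx
  have hx0 : (0 : ℝ) < x := by exact_mod_cast (show 0 < x by omega)
  have hlogsm : Real.log x ≤ ρ * δ * x := by
    have h7 := h6 x (by omega)
    rw [pow_one] at h7
    have h8 : Real.sqrt x ≤ x := by
      rw [Real.sqrt_le_left hx0.le]
      have : (1 : ℝ) ≤ x := by exact_mod_cast (show 1 ≤ x by omega)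
      nlinarith only [this]
    have h9 : 1 / (ρ * δ) * Real.log x ≤ x := h7.trans h8
    rw [one_div, inv_mul_le_iff₀ (by positivity)] at h9
    exact h9
  obtain ⟨hα1, hθ⟩ := h1 x (by omega) A α hA hα hAc
  have hα0 : 0 < α := lt_of_lt_of_le hδ hα
  set h := x / m with hh
  have hmm : (m + 1) ^ 2 ≤ x := by omega
  have hhm : h * m ≤ x := Nat.div_mul_le_self x m
  have hh1 : m ≤ h := by
    rw [hh, Nat.le_div_iff_mul_le (by omega)]
    nlinarith only [hmm]
  have hhx : x ≤ (m + 1) * h := by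
    have : x < m * (h + 1) := by
      rw [hh]
      exact Nat.lt_mul_div_succ x (by omega)
    nlinarith only [this, hh1]
  have h2h : 2 * h ≤ x := by nlinarith only [hhm, hm2]
  have hh0 : 0 < h := by omega
  set A1 := A.filter (fun p => h < p ∧ p ≤ x - h) with hA1
  have hA1x : A1 ⊆ pz x := (filter_subset _ _).trans hA
  -- pigeonhole
  have hPc := (h4 x (by omega)).1
  have hPpos : (0 : ℝ) < (pz x).card := by
    refine lt_of_lt_of_le ?_ hPc
    positivity
  obtain ⟨j, hj, hjB⟩ := exists_le_card_fiber_of_nsmul_le_card_of_maps_to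
    (s := B) (t := range (m + 1)) (f := fun p => (p - 1) / h) (b := (B.card : ℝ) / (m + 1)) (by
      intro p hp
      have hp2 := mem_pz.1 (hB hp)
      have := hp2.2.pos
      rw [mem_range, Nat.div_lt_iff_lt_mul hh0]
      omega) ⟨0, mem_range.2 (by omega)⟩ (by
      rw [card_range, nsmul_eq_mul]
      push_cast
      rw [mul_div_cancel₀ _ (by positivity)])
  set B1 := B.filter (fun p => (p - 1) / h = j) with hB1
  have hB1B : B1 ⊆ B := filter_subset _ _
  have hB1x : B1 ⊆ pz x := hB1B.trans hB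
  have hB1p : ∀ p ∈ B1, j * h < p ∧ p ≤ (j + 1) * h := by
    intro p hp
    rw [hB1, mem_filter] at hp
    have hp2 := (mem_pz.1 (hB hp.1)).2.pos
    have h7 := Nat.div_mul_le_self (p - 1) h
    have h8 := Nat.lt_mul_div_succ (p - 1) hh0
    rw [hp.2] at h7 h8
    rw [mul_comm h] at h8
    omega
  have hBpos : (0 : ℝ) < B.card := lt_of_lt_of_le (by positivity) hBc
  have hB1pos : (0 : ℝ) < B1.card := lt_of_lt_of_le (by positivity) hjB
  have hjx : j * h ≤ x := by
    obtain ⟨p, hp⟩ := card_pos.1 (show 0 < B1.card by exact_mod_cast hB1pos)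
    have h7 := (hB1p p hp).1
    have h8 := (mem_pz.1 (hB1x hp)).1
    omega
  set u := (j + 1) * h with hu
  have hu2 : u = j * h + h := by
    rw [hu]
    ring
  set X := x - h with hX
  have huX : u + X ≤ 2 * x := by omega
  have hXx : X ≤ x := Nat.sub_le _ _
  have hxX : x ≤ 2 * X := by omega
  -- the moment
  set w : ℕ := ⌈K * (y + C)⌉₊ with hw
  have hKyC : 0 ≤ K * (y + C) := by positivity
  have hwx : (w : ℝ) ≤ Real.log x := by
    have h7 := Nat.ceil_lt_add_one hKyC
    have h8 := h3 x (by omega) y hya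
    linarith
  have hB1low : Real.exp (-y) / (2 * (m + 1)) * (x / Real.log x) ≤ B1.card := by
    refine le_trans ?_ hjB
    rw [le_div_iff₀ (by positivity)]
    refine le_trans ?_ hBc
    calc Real.exp (-y) / (2 * (m + 1)) * (x / Real.log x) * (m + 1) =
          Real.exp (-y) * ((1 - 1 / 2) * (x / Real.log x)) := by
          field_simp
          ring
      _ ≤ _ := mul_le_mul_of_nonneg_left hPc (Real.exp_pos _).le
  have hc1 : (x : ℝ) / Real.log x ≤ Real.exp (y + C) * B1.card := by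
    calc (x : ℝ) / Real.log x = Real.exp (y + C) *
          (Real.exp (-y) / (2 * (m + 1)) * (x / Real.log x)) := by
          rw [Real.exp_add, hC, Real.exp_log (by positivity), Real.exp_neg]
          have := (Real.exp_pos y).ne'
          field_simp
      _ ≤ _ := mul_le_mul_of_nonneg_left hB1low (Real.exp_pos _).le
  have hc2 : (x : ℝ) ≤ B1.card * Real.log x ^ (a + 2) := by
    have h7 : 1 ≤ Real.exp (-y) * Real.log x ^ a := by
      have h8 : Real.exp (-(a * Real.log (Real.log x))) ≤ Real.exp (-y) := by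
        apply Real.exp_le_exp.2
        linarith
      have h9 : Real.exp (a * Real.log (Real.log x)) = Real.log x ^ a := by
        rw [Real.exp_nat_mul, Real.exp_log (by linarith)]
      calc (1 : ℝ) = Real.exp (-(a * Real.log (Real.log x))) * Real.log x ^ a := by
            rw [Real.exp_neg, h9]
            field_simp
        _ ≤ _ := by
            apply mul_le_mul_of_nonneg_right h8
            positivity
    calc (x : ℝ) = x * 1 * 1 := by ring
      _ ≤ x * (Real.exp (-y) * Real.log x ^ a) * (Real.log x / (2 * (m + 1))) := by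
          have h8 : 1 ≤ Real.log x / (2 * ((m : ℝ) + 1)) := by
            rw [le_div_iff₀ (by positivity)]
            linarith
          gcongr
      _ = Real.exp (-y) / (2 * (m + 1)) * (x / Real.log x) * Real.log x ^ (a + 2) := by
          have : Real.log x ≠ 0 := by linarith
          rw [pow_add]
          field_simp
      _ ≤ _ := by
          apply mul_le_mul_of_nonneg_right hB1low
          positivity
  have hmom := h2 X x (by omega) hXx hxX w u (y + C) B1 huX (by linarith) (Nat.le_ceil _) hwx hB1x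
    (fun k hk => (hB1p k hk).2) hc1 hc2
  -- the first moment
  have hsum := sum_repL (A := A1) (B := B1) (u := u) (X := X) hA1x (by
    intro p hp p' hp'
    rw [hA1, mem_filter] at hp
    have h7 := hB1p p' hp'
    omega)
  set S : ℝ := (1 - 2 * ρ) * α * x * B1.card with hS
  set t : ℝ := ρ * δ * B1.card with ht
  have hαx : 0 < α * x := by positivity
  have hS1 : S ≤ ∑ n ∈ Icc 1 X, repL A1 B1 (u + n) := by
    refine le_trans ?_ hsum
    have h7 : (1 - 2 * ρ) * α * x ≤ ∑ p ∈ A1, Real.log p - Real.log x := by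
      have h8 : ρ * δ * x ≤ ρ * α * x := by gcongr
      linarith
    calc S = B1.card * ((1 - 2 * ρ) * α * x) := by ring
      _ ≤ _ := mul_le_mul_of_nonneg_left h7 hB1pos.le
  have hXR : (X : ℝ) ≤ x := by exact_mod_cast hXx
  have htX : t * X ≤ ρ * α * x * B1.card := by
    calc t * X = ρ * δ * X * B1.card := by
          rw [ht]
          ring
      _ ≤ _ := by gcongr
  have hST : (1 - 3 * ρ) * (α * x) * B1.card ≤ S - t * X := by
    rw [hS]
    nlinarith only [htX]
  have hρ3 : 0 < 1 - 3 * ρ := by linarith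
  have hρ4 : 0 < 1 - 4 * ρ := by linarith
  have hST0 : 0 ≤ S - t * X := le_trans (by positivity) hST
  have hhold := holder_count (q := q) (by omega) X (fun n => repL A1 B1 (u + n))
    (fun n => repL_nonneg _ _ _) (by positivity) hS1 hST0
  set Sc : ℝ := (((Icc 1 X).filter (fun n => t ≤ repL A1 B1 (u + n))).card : ℝ) with hSc
  have hSc0 : 0 ≤ Sc := Nat.cast_nonneg _
  have hVw := Vz_pos w
  have hmom2 : ∑ n ∈ Icc 1 X, repL A1 B1 (u + n) ^ q ≤
      2 * x * ((Vz w) ^ (q - 1))⁻¹ * (B1.card : ℝ) ^ q := by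
    calc ∑ n ∈ Icc 1 X, repL A1 B1 (u + n) ^ q
        ≤ ∑ n ∈ Icc 1 X, (∑ k ∈ B1, ArithmeticFunction.vonMangoldt (u + n - k)) ^ q := by
          apply sum_le_sum
          intro n _
          exact pow_le_pow_left₀ (repL_nonneg _ _ _) (repL_le_sum hA1x _) q
      _ ≤ (1 + 1) * X * ((Vz w) ^ (q - 1))⁻¹ * (B1.card : ℝ) ^ q := hmom
      _ ≤ _ := by
          rw [show (1 : ℝ) + 1 = 2 by norm_num]
          gcongr
  have hkey : ((1 - 3 * ρ) * (α * x)) ^ q * (Vz w) ^ (q - 1) ≤ 2 * x * Sc ^ (q - 1) := by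
    have h7 : ((1 - 3 * ρ) * (α * x) * B1.card) ^ q ≤
        Sc ^ (q - 1) * (2 * x * ((Vz w) ^ (q - 1))⁻¹ * (B1.card : ℝ) ^ q) := by
      calc ((1 - 3 * ρ) * (α * x) * B1.card) ^ q ≤ (S - t * X) ^ q :=
            pow_le_pow_left₀ (by positivity) hST q
        _ ≤ _ := hhold
        _ ≤ _ := mul_le_mul_of_nonneg_left hmom2 (by positivity)
    rw [mul_pow] at h7
    have h8 : (0 : ℝ) < (B1.card : ℝ) ^ q := by positivity
    have h9 : ((1 - 3 * ρ) * (α * x)) ^ q * (B1.card : ℝ) ^ q ≤
        (2 * x * Sc ^ (q - 1) * ((Vz w) ^ (q - 1))⁻¹) * (B1.card : ℝ) ^ q := by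
      refine h7.trans (le_of_eq ?_)
      ring
    have h10 := le_of_mul_le_mul_right h9 h8
    calc ((1 - 3 * ρ) * (α * x)) ^ q * (Vz w) ^ (q - 1)
        ≤ (2 * x * Sc ^ (q - 1) * ((Vz w) ^ (q - 1))⁻¹) * (Vz w) ^ (q - 1) :=
          mul_le_mul_of_nonneg_right h10 (by positivity)
      _ = _ := by
          field_simp
  have hScl : (1 - 4 * ρ) * (α * x) * Vz w ≤ Sc := by
    by_contra hcon
    push Not at hcon
    have h7 : Sc ^ (q - 1) ≤ ((1 - 4 * ρ) * (α * x) * Vz w) ^ (q - 1) :=
      pow_le_pow_left₀ hSc0 hcon.le _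
    have h8 : ((1 - 3 * ρ) * (α * x)) ^ q * (Vz w) ^ (q - 1) ≤
        2 * x * ((1 - 4 * ρ) * (α * x) * Vz w) ^ (q - 1) :=
      hkey.trans (mul_le_mul_of_nonneg_left h7 (by positivity))
    have h9 : ((1 - 3 * ρ) * (α * x)) ^ q = ((1 - 3 * ρ) * (α * x)) ^ (q - 1) * ((1 - 3 * ρ) * (α * x)) := by
      rw [← pow_succ]
      congr 1
    rw [h9, mul_pow, mul_pow, mul_pow, mul_pow] at h8
    have h10 : (0 : ℝ) < x * ((α ^ (q - 1) * x ^ (q - 1)) * Vz w ^ (q - 1)) := by positivity
    have h11 : ((1 - 3 * ρ) ^ (q - 1) * ((1 - 3 * ρ) * α)) *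
        (x * ((α ^ (q - 1) * x ^ (q - 1)) * Vz w ^ (q - 1))) ≤
        (2 * (1 - 4 * ρ) ^ (q - 1)) * (x * ((α ^ (q - 1) * x ^ (q - 1)) * Vz w ^ (q - 1))) := by
      refine le_trans (le_of_eq ?_) (h8.trans (le_of_eq ?_)) <;> ring
    have h12 := le_of_mul_le_mul_right h11 h10
    rw [div_pow, lt_div_iff₀ (by positivity)] at hqn
    have h13 : 4 / δ * (1 - 4 * ρ) ^ (q - 1) * ((1 - 3 * ρ) * α) <
        2 * (1 - 4 * ρ) ^ (q - 1) := by
      refine lt_of_lt_of_le ?_ h12
      apply mul_lt_mul_of_pos_right hqn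
      positivity
    have h14 : (0 : ℝ) < (1 - 4 * ρ) ^ (q - 1) := by positivity
    have h15 : 4 / δ * ((1 - 3 * ρ) * α) < 2 := by
      have h16 : (4 / δ * ((1 - 3 * ρ) * α)) * (1 - 4 * ρ) ^ (q - 1) < 2 * (1 - 4 * ρ) ^ (q - 1) := by
        refine lt_of_eq_of_lt ?_ h13
        ring
      exact lt_of_mul_lt_mul_right h16 h14.le
    have h16 : 1 ≤ α / δ := (one_le_div hδ).2 hα
    have h17 : 4 / δ * ((1 - 3 * ρ) * α) = 4 * (1 - 3 * ρ) * (α / δ) := by ring
    rw [h17] at h15
    nlinarith only [h15, h16, hρ1, hρ0]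
  -- the conclusion
  have hfin : Sc ≤ (((Icc 1 (2 * x)).filter (fun N => ρ * δ / (m + 1) * B.card / Real.log x ≤
      (rep A B N : ℝ))).card : ℝ) := by
    rw [hSc]
    have h7 : ((Icc 1 X).filter (fun n => t ≤ repL A1 B1 (u + n))).card ≤
        ((Icc 1 (2 * x)).filter (fun N => ρ * δ / (m + 1) * B.card / Real.log x ≤
        (rep A B N : ℝ))).card := by
      apply card_le_card_of_injOn (fun n => u + n)
      · intro n hn
        rw [mem_coe, mem_filter, mem_Icc] at hn
        rw [mem_coe, mem_filter, mem_Icc]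
        obtain ⟨⟨hn1, hn2⟩, hn3⟩ := hn
        have hn4 : 1 ≤ u + n ∧ u + n ≤ 2 * x := by omega
        refine ⟨hn4, ?_⟩
        have h8 := repL_le_rep (B := B1) hA1x (u + n)
        have h9 : (rep A1 B1 (u + n) : ℝ) ≤ rep A B (u + n) := by
          exact_mod_cast rep_mono (filter_subset _ _) hB1B (u + n)
        rw [div_le_iff₀ (by linarith)]
        calc ρ * δ / (m + 1) * B.card = ρ * δ * (B.card / (m + 1)) := by ring
          _ ≤ t := by
              rw [ht]
              gcongr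
          _ ≤ rep A1 B1 (u + n) * Real.log x := hn3.trans h8
          _ ≤ _ := mul_le_mul_of_nonneg_right h9 (by linarith)
      · intro n _ n' _ he
        simpa using he
    exact_mod_cast h7
  refine le_trans ?_ (hScl.trans hfin)
  have h7 : (1 - ρ) * γ / Real.log y ≤ Vz w := by
    rw [div_le_iff₀ hlogy]
    exact hy2.le
  calc (1 - ε) * (α * x * (γ / Real.log y)) ≤ (1 - 4 * ρ) * (1 - ρ) * (α * x * (γ / Real.log y)) := by
        apply mul_le_mul_of_nonneg_right _ (by positivity)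
        nlinarith only [hρ, hρ0, sq_nonneg ρ]
    _ = (1 - 4 * ρ) * (α * x) * ((1 - ρ) * γ / Real.log y) := by ring
    _ ≤ _ := mul_le_mul_of_nonneg_left h7 (by positivity)

end Pool.Agent.Q259.PK
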