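import Pool.Agent.Q259.PK.Tup
import Pool.Agent.H373R2.T7.LamZ2

/-!
Moments of the number of representations in the sieve model.
-/

set_option autoImplicit false

namespace Pool.Agent.Q259.PK

open Finset
open Pool.Agent.H373R2.T7 (pz mem_pz Vz lamz nuB PerB Vz_pos lamz_nonneg Vz_le_one)

open Classical in
lemma prod_lamz {q : ℕ} (z u n : ℕ) (k : Fin q → ℕ) (hk : ∀ i, k i ≤ u) :
    ∏ i, lamz z (u + n - k i) = if ∀ p ∈ pz z, ¬ Qk u k p n then ((Vz z) ^ q)⁻¹ else 0 := by
  have e : ∀ i, u + n - k i = (u - k i) + n := by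
    intro i
    have := hk i
    omega
  simp only [e]
  by_cases h : ∀ p ∈ pz z, ¬ Qk u k p n
  · rw [if_pos h]
    have h1 : ∀ i : Fin q, lamz z (u - k i + n) = (Vz z)⁻¹ := by
      intro i
      unfold lamz
      rw [if_pos]
      intro p hp hd
      exact h p hp ⟨i, hd⟩
    rw [prod_congr rfl fun i _ => h1 i, prod_const, card_univ, Fintype.card_fin, inv_pow]
  · rw [if_neg h]
    push Not at h
    obtain ⟨p, hp, i, hi⟩ := h
    apply prod_eq_zero (mem_univ i)
    unfold lamz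
    rw [if_neg]
    push Not
    exact ⟨p, hp, hi⟩

/-- several translates without small prime factors -/
theorem tup (q E : ℕ) (hq : 1 ≤ q) (ε : ℝ) (hε : 0 < ε) : ∃ N0 : ℕ, ∀ X : ℕ, N0 ≤ X →
    ∀ z w u : ℕ, 1 ≤ z → (z : ℝ) ≤ Real.log X ^ E → w ≤ z → ∀ k : Fin q → ℕ, (∀ i, k i ≤ u) →
    ∑ n ∈ Icc 1 X, ∏ i, lamz z (u + n - k i) ≤ (1 + ε) * X * (((Vz w) ^ (q - 1))⁻¹ *
      Real.exp (2 * ∑ r ∈ prs q, sa w z (df (k r.1) (k r.2)))) := by
  classical
  obtain ⟨n1, h1⟩ := Pool.Agent.H373R2.T7.sys_count q E (q + 1) hq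
  obtain ⟨n2, h2⟩ := Pool.Agent.H373R2.T7.Vz_inv_small E
  have hlim : Filter.Tendsto (fun N : ℕ => Real.log (N : ℝ)) Filter.atTop Filter.atTop :=
    Real.tendsto_log_atTop.comp (tendsto_natCast_atTop_atTop (R := ℝ))
  obtain ⟨n3, h3⟩ := Filter.eventually_atTop.1 (hlim.eventually_ge_atTop (max 1 (1 / ε)))
  refine ⟨max n1 (max n2 n3), fun X hX z w u hz hzE hwz k hk => ?_⟩
  have hX1 : n1 ≤ X := (le_max_left _ _).trans hX
  have hX2 : n2 ≤ X := ((le_max_left _ _).trans (le_max_right _ _)).trans hX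
  have hX3 : n3 ≤ X := ((le_max_right _ _).trans (le_max_right _ _)).trans hX
  have hL := h3 X hX3
  have hL1 : 1 ≤ Real.log X := (le_max_left _ _).trans hL
  have hLε : 1 / ε ≤ Real.log X := (le_max_right _ _).trans hL
  have hV := Vz_pos z
  have hVw := Vz_pos w
  have hper : PerB (Qk u k) q := by
    refine ⟨fun p n => ?_, fun p _ => nu_le u k p⟩
    unfold Qk
    apply exists_congr
    intro i
    constructor
    · intro h
      have := Nat.mod_add_div n p
      rw [← this, ← add_assoc] at h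
      exact (Nat.dvd_add_left (Dvd.intro _ rfl)).1 h
    · intro h
      have := Nat.mod_add_div n p
      rw [← this, ← add_assoc]
      exact (Nat.dvd_add_left (Dvd.intro _ rfl)).2 h
  have key := (abs_le.1 (h1 X hX1 z hz hzE (Qk u k) hper)).2
  have e1 : ∑ n ∈ Icc 1 X, ∏ i, lamz z (u + n - k i) =
      (((Icc 1 X).filter (fun n : ℕ => ∀ p ∈ pz z, ¬ Qk u k p n)).card : ℝ) * ((Vz z) ^ q)⁻¹ := by
    rw [sum_congr rfl fun n _ => prod_lamz z u n k hk, ← sum_filter, sum_const, nsmul_eq_mul]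
  rw [e1]
  set P := ∏ p ∈ pz z, (1 - (nuB (Qk u k) p : ℝ) / p) with hP
  have h4 : (((Icc 1 X).filter (fun n : ℕ => ∀ p ∈ pz z, ¬ Qk u k p n)).card : ℝ) ≤
      X * P + X / Real.log X ^ (q + 1) := by linarith
  have h5 := prod_bound hq hwz hk
  rw [← hP] at h5
  have h6 : ((Vz z) ^ q)⁻¹ ≤ Real.log X ^ q := by
    rw [← inv_pow]
    exact pow_le_pow_left₀ (by positivity) (h2 X hX2 z hz hzE) q
  set G : ℝ := ((Vz w) ^ (q - 1))⁻¹ * Real.exp (2 * ∑ r ∈ prs q, sa w z (df (k r.1) (k r.2))) with hG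
  have hG1 : 1 ≤ G := by
    have h7 : 1 ≤ ((Vz w) ^ (q - 1))⁻¹ := by
      apply one_le_inv_iff₀.2
      exact ⟨by positivity, pow_le_one₀ hVw.le (Vz_le_one w)⟩
    have h8 : 1 ≤ Real.exp (2 * ∑ r ∈ prs q, sa w z (df (k r.1) (k r.2))) := by
      apply Real.one_le_exp
      have : 0 ≤ ∑ r ∈ prs q, sa w z (df (k r.1) (k r.2)) := sum_nonneg fun _ _ => sa_nonneg _ _ _
      linarith
    rw [hG]
    nlinarith
  have hXn : (0 : ℝ) ≤ X := Nat.cast_nonneg _
  have h9 : X / Real.log X ^ (q + 1) * ((Vz z) ^ q)⁻¹ ≤ ε * X * G := by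
    calc X / Real.log X ^ (q + 1) * ((Vz z) ^ q)⁻¹
        ≤ X / Real.log X ^ (q + 1) * Real.log X ^ q := by
          apply mul_le_mul_of_nonneg_left h6
          positivity
      _ = X * (1 / Real.log X) := by
          have : Real.log X ≠ 0 := by positivity
          rw [pow_succ]
          field_simp
      _ ≤ X * ε := by
          apply mul_le_mul_of_nonneg_left _ hXn
          rw [div_le_iff₀ (by linarith)]
          rw [div_le_iff₀ hε] at hLε
          linarith
      _ ≤ ε * X * G := by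
          have : 0 ≤ ε * X := by positivity
          nlinarith
  calc (((Icc 1 X).filter (fun n : ℕ => ∀ p ∈ pz z, ¬ Qk u k p n)).card : ℝ) * ((Vz z) ^ q)⁻¹
      ≤ (X * P + X / Real.log X ^ (q + 1)) * ((Vz z) ^ q)⁻¹ := by gcongr
    _ = X * (P * ((Vz z) ^ q)⁻¹) + X / Real.log X ^ (q + 1) * ((Vz z) ^ q)⁻¹ := by ring
    _ ≤ X * G + ε * X * G := add_le_add (mul_le_mul_of_nonneg_left h5 hXn) h9
    _ = _ := by ring

/-- sum over tuples of a function of two coordinates -/
lemma sum_two {q : ℕ} (B : Finset ℕ) (g : ℕ → ℕ → ℝ) (hg : ∀ a b, 0 ≤ g a b) {i j : Fin q}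
    (hij : i ≠ j) :
    ∑ k ∈ Fintype.piFinset (fun _ : Fin q => B), g (k i) (k j) ≤
      (B.card : ℝ) ^ (q - 2) * ∑ a ∈ B, ∑ b ∈ B, g a b := by
  classical
  have h1 : ∀ k ∈ Fintype.piFinset (fun _ : Fin q => B), g (k i) (k j) =
      ∑ r ∈ B ×ˢ B, if k i = r.1 ∧ k j = r.2 then g r.1 r.2 else 0 := by
    intro k hk
    rw [Fintype.mem_piFinset] at hk
    rw [sum_eq_single (k i, k j)]
    · simp
    · intro r _ hr
      rw [if_neg]
      rintro ⟨h2, h3⟩
      exact hr (Prod.ext h2.symm h3.symm)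
    · intro h
      exact absurd (mem_product.2 ⟨hk i, hk j⟩) h
  have h0 : ∑ a ∈ B, ∑ b ∈ B, g a b = ∑ r ∈ B ×ˢ B, g r.1 r.2 := (sum_product' _ _ _).symm
  rw [sum_congr rfl h1, sum_comm, h0, mul_sum]
  apply sum_le_sum
  intro r hr
  rw [← sum_filter, sum_const, nsmul_eq_mul]
  apply mul_le_mul_of_nonneg_right _ (hg _ _)
  have h2 : (Fintype.piFinset (fun _ : Fin q => B)).filter (fun k => k i = r.1 ∧ k j = r.2) ⊆
      Fintype.piFinset (fun l : Fin q => if l = i then {r.1} else if l = j then {r.2} else B) := by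
    intro k hk
    rw [mem_filter, Fintype.mem_piFinset] at hk
    rw [Fintype.mem_piFinset]
    intro l
    split_ifs with h3 h4
    · rw [h3, mem_singleton]
      exact hk.2.1
    · rw [h4, mem_singleton]
      exact hk.2.2
    · exact hk.1 l
  have h3 := card_le_card h2
  rw [Fintype.card_piFinset] at h3
  have h4 : ∏ l : Fin q, (if l = i then ({r.1} : Finset ℕ) else if l = j then {r.2} else B).card =
      B.card ^ (q - 2) := by
    rw [← mul_prod_erase _ _ (mem_univ i), ← mul_prod_erase _ _ (mem_erase.2 ⟨hij.symm, mem_univ j⟩)]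
    rw [if_pos rfl, if_neg hij.symm, if_pos rfl, card_singleton, card_singleton, one_mul, one_mul]
    rw [prod_congr rfl (g := fun _ => B.card) (by
      intro l hl
      rw [mem_erase, mem_erase] at hl
      rw [if_neg hl.2.1, if_neg hl.1])]
    rw [prod_const, card_erase_of_mem (mem_erase.2 ⟨hij.symm, mem_univ j⟩),
      card_erase_of_mem (mem_univ i), card_univ, Fintype.card_fin]
    congr 1
  rw [h4] at h3
  exact_mod_cast h3

lemma prs_ne {q : ℕ} {r : Fin q × Fin q} (h : r ∈ prs q) : r.1 ≠ r.2 := by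
  rw [prs, mem_filter] at h
  exact h.2.ne

lemma prs_card_pos {q : ℕ} (hq : 2 ≤ q) : 0 < (prs q).card := by
  apply card_pos.2
  refine ⟨(⟨0, by omega⟩, ⟨1, by omega⟩), ?_⟩
  rw [prs, mem_filter]
  exact ⟨mem_univ _, by simp⟩

/-- the exponential of the sum over all pairs, averaged over tuples -/
lemma exp_pairs {q : ℕ} (hq : 2 ≤ q) (B : Finset ℕ) (w z : ℕ) :
    ∑ k ∈ Fintype.piFinset (fun _ : Fin q => B),
      Real.exp (2 * ∑ r ∈ prs q, sa w z (df (k r.1) (k r.2))) ≤
      (B.card : ℝ) ^ (q - 2) * ∑ a ∈ B, ∑ b ∈ B,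
        Real.exp (2 * (prs q).card * sa w z (df a b)) := by
  have hM : (0 : ℝ) < (prs q).card := by exact_mod_cast prs_card_pos hq
  set M : ℝ := ((prs q).card : ℝ) with hMd
  have h1 : ∀ k : Fin q → ℕ, Real.exp (2 * ∑ r ∈ prs q, sa w z (df (k r.1) (k r.2))) ≤
      ∑ r ∈ prs q, (1 / M) * Real.exp (2 * M * sa w z (df (k r.1) (k r.2))) := by
    intro k
    have h2 := convexOn_exp.map_sum_le (t := prs q) (w := fun _ => 1 / M)
      (p := fun r => 2 * M * sa w z (df (k r.1) (k r.2))) (fun _ _ => by positivity)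
      (by rw [sum_const, nsmul_eq_mul, ← hMd]; field_simp) (fun _ _ => Set.mem_univ _)
    simp only [smul_eq_mul] at h2
    refine le_trans (le_of_eq ?_) h2
    congr 1
    rw [mul_sum]
    apply sum_congr rfl
    intro r _
    field_simp
  calc ∑ k ∈ Fintype.piFinset (fun _ : Fin q => B),
        Real.exp (2 * ∑ r ∈ prs q, sa w z (df (k r.1) (k r.2)))
      ≤ ∑ k ∈ Fintype.piFinset (fun _ : Fin q => B),
          ∑ r ∈ prs q, (1 / M) * Real.exp (2 * M * sa w z (df (k r.1) (k r.2))) :=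
        sum_le_sum fun k _ => h1 k
    _ = ∑ r ∈ prs q, (1 / M) * ∑ k ∈ Fintype.piFinset (fun _ : Fin q => B),
          Real.exp (2 * M * sa w z (df (k r.1) (k r.2))) := by
        rw [sum_comm]
        apply sum_congr rfl
        intro r _
        rw [mul_sum]
    _ ≤ ∑ r ∈ prs q, (1 / M) * ((B.card : ℝ) ^ (q - 2) * ∑ a ∈ B, ∑ b ∈ B,
          Real.exp (2 * M * sa w z (df a b))) := by
        apply sum_le_sum
        intro r hr
        apply mul_le_mul_of_nonneg_left _ (by positivity)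
        exact sum_two B (fun a b => Real.exp (2 * M * sa w z (df a b)))
          (fun _ _ => (Real.exp_pos _).le) (prs_ne hr)
    _ = _ := by
        rw [sum_const, nsmul_eq_mul, ← hMd]
        field_simp

end Pool.Agent.Q259.PK
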