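import Pool.Agent.Q259.PK.Mom

/-!
The moments of the number of representations in the sieve model.
-/

set_option autoImplicit false

namespace Pool.Agent.Q259.PK

open Finset
open Pool.Agent.H373R2.T7 (pz mem_pz Vz lamz nuB PerB Vz_pos lamz_nonneg Vz_le_one)

lemma sa_le (w z h : ℕ) : sa w z h ≤ 1 + Real.log z := by
  refine le_trans ?_ (Pool.Agent.H373R2.T7.sum_pz_le z)
  unfold sa PW
  apply sum_le_sum_of_subset_of_nonneg
  · exact (filter_subset _ _).trans (filter_subset _ _)
  · intro _ _ _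
    positivity

lemma sum_pow {q : ℕ} (B : Finset ℕ) (f : ℕ → ℝ) :
    (∑ k ∈ B, f k) ^ q = ∑ k ∈ Fintype.piFinset (fun _ : Fin q => B), ∏ i, f (k i) := by
  rw [← Finset.prod_univ_sum (fun _ : Fin q => B) (fun _ k => f k), prod_const, card_univ,
    Fintype.card_fin]

/-- logarithms of powers against square roots -/
lemma log_pow_small (c : ℝ) (n : ℕ) : ∃ x0 : ℕ, ∀ x : ℕ, x0 ≤ x →
    c * Real.log x ^ n ≤ Real.sqrt x := by
  have h1 : ∀ᶠ x : ℝ in Filter.atTop, c * Real.log x ^ n ≤ Real.sqrt x := by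
    have h2 := (isLittleO_log_rpow_rpow_atTop (n : ℝ) (show (0 : ℝ) < 1 / 2 by norm_num)).bound
      (show (0 : ℝ) < 1 / (|c| + 1) by positivity)
    filter_upwards [h2, Filter.eventually_ge_atTop 1] with x h3 h4
    rw [Real.rpow_natCast, ← Real.sqrt_eq_rpow, Real.norm_of_nonneg (Real.sqrt_nonneg _),
      Real.norm_of_nonneg (pow_nonneg (Real.log_nonneg h4) n), one_div, inv_mul_eq_div,
      le_div_iff₀ (by positivity)] at h3
    have h5 : 0 ≤ Real.log x ^ n := pow_nonneg (Real.log_nonneg h4) n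
    have h6 : c ≤ |c| := le_abs_self c
    nlinarith
  obtain ⟨x0, h0⟩ := Filter.eventually_atTop.1 (h1.natCast_atTop)
  exact ⟨x0, fun x hx => h0 x hx⟩

/-- **The moments in the model.** -/
theorem model_moment (q E : ℕ) (hq : 2 ≤ q) (ε : ℝ) (hε : 0 < ε) (hε1 : ε ≤ 1) : ∃ K : ℝ, 1 ≤ K ∧
    ∃ x0 : ℕ, ∀ X x : ℕ, x0 ≤ X → X ≤ x → ∀ (w z u : ℕ) (lam : ℝ) (B : Finset ℕ),
    1 ≤ lam → K * lam ≤ w → w ≤ z → (z : ℝ) ≤ Real.log X ^ E → B ⊆ pz x → (∀ k ∈ B, k ≤ u) →
    (x : ℝ) / Real.log x ≤ Real.exp lam * B.card → Real.sqrt x ≤ B.card →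
    ∑ n ∈ Icc 1 X, (∑ k ∈ B, lamz z (u + n - k)) ^ q ≤
      (1 + ε) * X * ((Vz w) ^ (q - 1))⁻¹ * (B.card : ℝ) ^ q := by
  obtain ⟨N0, hN⟩ := tup q E (by omega) (ε / 5) (by positivity)
  have hM0 : (0 : ℝ) < (prs q).card := by exact_mod_cast prs_card_pos hq
  set M : ℝ := 2 * ((prs q).card : ℝ) with hM
  have hMp : 0 < M := by positivity
  obtain ⟨K, hK1, x1, hx1⟩ := subset_pairs M hMp (ε / 5) (by positivity)
  obtain ⟨x2, hx2⟩ := log_pow_small (5 / ε * Real.exp M) (E * (2 * (prs q).card))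
  refine ⟨K, hK1, max N0 (max x1 (max x2 3)), ?_⟩
  intro X x hX hXx w z u lam B hlam hw hwz hz hB hu hBx hBs
  have hXN : N0 ≤ X := (le_max_left _ _).trans hX
  have hXr := (le_max_right _ _).trans hX
  have hX1 : x1 ≤ x := ((le_max_left _ _).trans hXr).trans hXx
  have hXr2 := (le_max_right _ _).trans hXr
  have hX2 : x2 ≤ x := ((le_max_left _ _).trans hXr2).trans hXx
  have hX3 : 3 ≤ X := (le_max_right _ _).trans hXr2
  have hz1 : 1 ≤ z := by
    have h1 : (1 : ℝ) ≤ w := by nlinarith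
    have h2 : 1 ≤ w := by exact_mod_cast h1
    omega
  have hlogX : 0 < Real.log X := Real.log_pos (by exact_mod_cast (show 1 < X by omega))
  have hlogXx : Real.log X ≤ Real.log x := by
    apply Real.log_le_log
    · exact_mod_cast (show 0 < X by omega)
    · exact_mod_cast hXx
  -- the diagonal
  have hdiag : Real.exp (M * sa w z 0) ≤ ε / 5 * B.card := by
    have h1 : Real.exp (M * sa w z 0) ≤ Real.exp M * (z : ℝ) ^ (2 * (prs q).card) := by
      calc Real.exp (M * sa w z 0) ≤ Real.exp (M * (1 + Real.log z)) := by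
            apply Real.exp_le_exp.2
            exact mul_le_mul_of_nonneg_left (sa_le w z 0) hMp.le
        _ = Real.exp M * (z : ℝ) ^ (2 * (prs q).card) := by
            rw [mul_add, mul_one, Real.exp_add]
            congr 1
            have hz0 : (0 : ℝ) < z := by exact_mod_cast hz1
            rw [← Real.exp_log hz0, ← Real.exp_nat_mul, Real.exp_log hz0]
            congr 1
            push_cast
            ring
    have h2 : (z : ℝ) ^ (2 * (prs q).card) ≤ Real.log x ^ (E * (2 * (prs q).card)) := by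
      rw [pow_mul (Real.log (x : ℝ))]
      apply pow_le_pow_left₀ (Nat.cast_nonneg _)
      exact hz.trans (pow_le_pow_left₀ hlogX.le hlogXx E)
    have h3 := hx2 x hX2
    have h4 : Real.exp M * Real.log x ^ (E * (2 * (prs q).card)) ≤ ε / 5 * B.card := by
      have h5 : 5 / ε * Real.exp M * Real.log x ^ (E * (2 * (prs q).card)) ≤ B.card := h3.trans hBs
      calc Real.exp M * Real.log x ^ (E * (2 * (prs q).card)) =
            ε / 5 * (5 / ε * Real.exp M * Real.log x ^ (E * (2 * (prs q).card))) := by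
            field_simp
        _ ≤ _ := by
            apply mul_le_mul_of_nonneg_left h5
            positivity
    calc Real.exp (M * sa w z 0) ≤ Real.exp M * (z : ℝ) ^ (2 * (prs q).card) := h1
      _ ≤ Real.exp M * Real.log x ^ (E * (2 * (prs q).card)) := by gcongr
      _ ≤ _ := h4
  have hpairs : ∑ a ∈ B, ∑ b ∈ B, Real.exp (M * sa w z (df a b)) ≤
      (1 + 2 * (ε / 5)) * (B.card : ℝ) ^ 2 := by
    have h1 := hx1 x hX1 w z lam B hlam hw hB hBx
    have h2 : ∑ a ∈ B, ∑ b ∈ B, Real.exp (M * sa w z (df a b)) =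
        ∑ a ∈ B, ∑ b ∈ B.filter (fun b => b ≠ a), Real.exp (M * sa w z (df a b)) +
        ∑ a ∈ B, Real.exp (M * sa w z 0) := by
      rw [← sum_add_distrib]
      apply sum_congr rfl
      intro a ha
      rw [← sum_filter_add_sum_filter_not B (fun b => b ≠ a)]
      congr 1
      have h3 : B.filter (fun b => ¬ b ≠ a) = {a} := by
        ext b
        rw [mem_filter, mem_singleton]
        constructor
        · rintro ⟨_, h⟩
          exact not_not.1 h
        · rintro rfl
          exact ⟨ha, by simp⟩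
      rw [h3, sum_singleton]
      have : df a a = 0 := by
        unfold df
        omega
      rw [this]
    rw [h2, sum_const, nsmul_eq_mul]
    have h3 : (B.card : ℝ) * Real.exp (M * sa w z 0) ≤ B.card * (ε / 5 * B.card) :=
      mul_le_mul_of_nonneg_left hdiag (Nat.cast_nonneg _)
    nlinarith
  have hXn : (0 : ℝ) ≤ X := Nat.cast_nonneg _
  have hVw := Vz_pos w
  calc ∑ n ∈ Icc 1 X, (∑ k ∈ B, lamz z (u + n - k)) ^ q
      = ∑ k ∈ Fintype.piFinset (fun _ : Fin q => B), ∑ n ∈ Icc 1 X, ∏ i, lamz z (u + n - k i) := by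
        rw [sum_comm]
        apply sum_congr rfl
        intro n _
        exact sum_pow B (fun k => lamz z (u + n - k))
    _ ≤ ∑ k ∈ Fintype.piFinset (fun _ : Fin q => B), (1 + ε / 5) * X * (((Vz w) ^ (q - 1))⁻¹ *
          Real.exp (2 * ∑ r ∈ prs q, sa w z (df (k r.1) (k r.2)))) := by
        apply sum_le_sum
        intro k hk
        rw [Fintype.mem_piFinset] at hk
        exact hN X hXN z w u hz1 hz hwz k (fun i => hu _ (hk i))
    _ = (1 + ε / 5) * X * ((Vz w) ^ (q - 1))⁻¹ * ∑ k ∈ Fintype.piFinset (fun _ : Fin q => B),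
          Real.exp (2 * ∑ r ∈ prs q, sa w z (df (k r.1) (k r.2))) := by
        rw [mul_sum]
        apply sum_congr rfl
        intro k _
        ring
    _ ≤ (1 + ε / 5) * X * ((Vz w) ^ (q - 1))⁻¹ * ((B.card : ℝ) ^ (q - 2) *
          ((1 + 2 * (ε / 5)) * (B.card : ℝ) ^ 2)) := by
        apply mul_le_mul_of_nonneg_left _ (by positivity)
        refine (exp_pairs hq B w z).trans ?_
        apply mul_le_mul_of_nonneg_left _ (by positivity)
        rw [← hM]
        exact hpairs
    _ = (1 + ε / 5) * (1 + 2 * (ε / 5)) * (X * ((Vz w) ^ (q - 1))⁻¹ * (B.card : ℝ) ^ q) := by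
        have : (B.card : ℝ) ^ q = (B.card : ℝ) ^ (q - 2) * (B.card : ℝ) ^ 2 := by
          rw [← pow_add]
          congr 1
          omega
        rw [this]
        ring
    _ ≤ (1 + ε) * (X * ((Vz w) ^ (q - 1))⁻¹ * (B.card : ℝ) ^ q) := by
        apply mul_le_mul_of_nonneg_right _ (by positivity)
        nlinarith
    _ = _ := by ring

end Pool.Agent.Q259.PK
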