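import Pool.Agent.Q259.PK.Sum

/-!
Averages of `exp (M s(|p - p'|))` over pairs of elements of a set `B` of primes.
-/

set_option autoImplicit false

namespace Pool.Agent.Q259.PK

open Finset
open Pool.Agent.H373R2.T7 (pz mem_pz)

/-- the average over pairs of different elements of a set of primes of relative density
`exp (- lam)` -/
theorem subset_pairs (M : ℝ) (hM : 0 < M) (ε : ℝ) (hε : 0 < ε) : ∃ K : ℝ, 1 ≤ K ∧ ∃ x0 : ℕ,
    ∀ x : ℕ, x0 ≤ x → ∀ (w z : ℕ) (lam : ℝ) (B : Finset ℕ), 1 ≤ lam → K * lam ≤ w → B ⊆ pz x →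
    (x : ℝ) / Real.log x ≤ Real.exp lam * B.card →
    ∑ p ∈ B, ∑ p' ∈ B.filter (fun p' => p' ≠ p), Real.exp (M * sa w z (df p p')) ≤
      (1 + ε) * (B.card : ℝ) ^ 2 := by
  obtain ⟨C, hC1, x0, hC⟩ := prime_pairs
  set η : ℝ := Real.log (1 + ε / 2) with hη
  have hη0 : 0 < η := Real.log_pos (by linarith)
  set c : ℝ := max 0 (Real.log (2 * C / ε)) with hc
  have hc0 : 0 ≤ c := le_max_left _ _
  have hcC : C * Real.exp (-c) ≤ ε / 2 := by
    have h1 : Real.log (2 * C / ε) ≤ c := le_max_right _ _
    have h2 : 2 * C / ε ≤ Real.exp c := by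
      rw [← Real.exp_log (show 0 < 2 * C / ε by positivity)]
      exact Real.exp_le_exp.2 h1
    rw [Real.exp_neg, ← div_eq_mul_inv, div_le_iff₀ (Real.exp_pos _)]
    rw [div_le_iff₀ hε] at h2
    linarith
  refine ⟨max 1 (2 * M * (1 + (2 + c) / η)), le_max_left _ _, max x0 3, ?_⟩
  intro x hx w z lam B hlam hw hB hBc
  have hx0 : x0 ≤ x := (le_max_left _ _).trans hx
  have hx3 : 3 ≤ x := (le_max_right _ _).trans hx
  have hlogx : 0 < Real.log x := Real.log_pos (by exact_mod_cast (show 1 < x by omega))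
  have hw1 : (1 : ℝ) ≤ w := by
    calc (1 : ℝ) ≤ max 1 (2 * M * (1 + (2 + c) / η)) * lam := by
          have : (1 : ℝ) ≤ max 1 (2 * M * (1 + (2 + c) / η)) := le_max_left _ _
          nlinarith
      _ ≤ w := hw
  set S : ℝ := 1 + (2 * lam + c) / η with hS
  have hS1 : 1 ≤ S := by
    have : 0 ≤ (2 * lam + c) / η := by positivity
    linarith
  have hSl : S ≤ (1 + (2 + c) / η) * lam := by
    have h1 : 2 * lam + c ≤ (2 + c) * lam := by nlinarith
    calc S ≤ 1 + (2 + c) * lam / η := by
          rw [hS]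
          gcongr
      _ ≤ 1 * lam + (2 + c) * lam / η := by linarith
      _ = _ := by ring
  have hSM : 2 * (S * M) ≤ w := by
    calc 2 * (S * M) ≤ 2 * ((1 + (2 + c) / η) * lam * M) := by gcongr
      _ = 2 * M * (1 + (2 + c) / η) * lam := by ring
      _ ≤ max 1 (2 * M * (1 + (2 + c) / η)) * lam := by
          apply mul_le_mul_of_nonneg_right (le_max_right _ _) (by linarith)
      _ ≤ w := hw
  have hpt : ∀ h : ℕ, Real.exp (M * sa w z h) ≤ Real.exp η +
      Real.exp (-(2 * lam + c)) * Real.exp (S * M * sa w z h) := by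
    intro h
    have hu : 0 ≤ M * sa w z h := mul_nonneg hM.le (sa_nonneg _ _ _)
    rcases le_total (M * sa w z h) η with h1 | h1
    · have := Real.exp_le_exp.2 h1
      have h2 : 0 ≤ Real.exp (-(2 * lam + c)) * Real.exp (S * M * sa w z h) := by positivity
      linarith
    · rw [← Real.exp_add]
      have h2 : M * sa w z h ≤ -(2 * lam + c) + S * M * sa w z h := by
        have h3 : (S - 1) * η = 2 * lam + c := by
          rw [hS]
          field_simp
          ring
        have h4 : (S - 1) * η ≤ (S - 1) * (M * sa w z h) :=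
          mul_le_mul_of_nonneg_left h1 (by linarith)
        nlinarith
      have := Real.exp_le_exp.2 h2
      have h5 := Real.exp_pos η
      linarith
  have hcard : ∑ p ∈ B, ((B.filter (fun p' => p' ≠ p)).card : ℝ) ≤ (B.card : ℝ) ^ 2 := by
    calc ∑ p ∈ B, ((B.filter (fun p' => p' ≠ p)).card : ℝ) ≤ ∑ p ∈ B, (B.card : ℝ) := by
          apply sum_le_sum
          intro p _
          exact_mod_cast card_filter_le _ _
      _ = _ := by
          rw [sum_const, nsmul_eq_mul]
          ring
  have hbig := hC x hx0 w z (S * M) (by exact_mod_cast hw1) (by positivity) hSM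
  have hsub : ∑ p ∈ B, ∑ p' ∈ B.filter (fun p' => p' ≠ p), Real.exp (S * M * sa w z (df p p')) ≤
      C * (x / Real.log x) ^ 2 := by
    refine le_trans ?_ hbig
    calc ∑ p ∈ B, ∑ p' ∈ B.filter (fun p' => p' ≠ p), Real.exp (S * M * sa w z (df p p'))
        ≤ ∑ p ∈ B, ∑ p' ∈ (pz x).filter (fun p' => p' ≠ p), Real.exp (S * M * sa w z (df p p')) := by
          apply sum_le_sum
          intro p _
          apply sum_le_sum_of_subset_of_nonneg (filter_subset_filter _ hB)
          intro _ _ _
          positivity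
      _ ≤ _ := by
          apply sum_le_sum_of_subset_of_nonneg hB
          intro _ _ _
          positivity
  have hxB : (x / Real.log x) ^ 2 ≤ Real.exp (2 * lam) * (B.card : ℝ) ^ 2 := by
    have h1 : Real.exp (2 * lam) = Real.exp lam ^ 2 := by
      rw [← Real.exp_nat_mul]
      norm_num
    rw [h1, ← mul_pow]
    apply pow_le_pow_left₀ _ hBc
    positivity
  calc ∑ p ∈ B, ∑ p' ∈ B.filter (fun p' => p' ≠ p), Real.exp (M * sa w z (df p p'))
      ≤ ∑ p ∈ B, ∑ p' ∈ B.filter (fun p' => p' ≠ p), (Real.exp η +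
          Real.exp (-(2 * lam + c)) * Real.exp (S * M * sa w z (df p p'))) := by
        apply sum_le_sum
        intro p _
        apply sum_le_sum
        intro p' _
        exact hpt _
    _ = Real.exp η * ∑ p ∈ B, ((B.filter (fun p' => p' ≠ p)).card : ℝ) +
          Real.exp (-(2 * lam + c)) * ∑ p ∈ B, ∑ p' ∈ B.filter (fun p' => p' ≠ p),
            Real.exp (S * M * sa w z (df p p')) := by
        rw [mul_sum, mul_sum, ← sum_add_distrib]
        apply sum_congr rfl
        intro p _
        rw [sum_add_distrib, sum_const, nsmul_eq_mul, mul_sum]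
        ring
    _ ≤ Real.exp η * (B.card : ℝ) ^ 2 + Real.exp (-(2 * lam + c)) *
          (C * (Real.exp (2 * lam) * (B.card : ℝ) ^ 2)) := by
        apply add_le_add
        · exact mul_le_mul_of_nonneg_left hcard (Real.exp_pos _).le
        · apply mul_le_mul_of_nonneg_left _ (Real.exp_pos _).le
          refine hsub.trans ?_
          apply mul_le_mul_of_nonneg_left hxB (by linarith)
    _ = (Real.exp η + C * Real.exp (-c)) * (B.card : ℝ) ^ 2 := by
        rw [show -(2 * lam + c) = -(2 * lam) + -c by ring, Real.exp_add, Real.exp_neg (2 * lam)]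
        have := (Real.exp_pos (2 * lam)).ne'
        field_simp
    _ ≤ (1 + ε) * (B.card : ℝ) ^ 2 := by
        apply mul_le_mul_of_nonneg_right _ (sq_nonneg _)
        rw [hη, Real.exp_log (by linarith)]
        linarith

end Pool.Agent.Q259.PK
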