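import Pool.Agent.H373R2.T7.SysCount
import Pool.Agent.H646.Tuples

/-!
Averages of `exp (t s(|p - p'|))` over pairs of primes, `s(h)` the sum of `1 / l` over the prime factors
`l` of `h` in `(w, z]`.
-/

set_option autoImplicit false

namespace Pool.Agent.Q259.PK

open Finset
open Pool.Agent.H373R2.T7 (pz mem_pz)

/-- the primes in `(w, z]` -/
def PW (w z : ℕ) : Finset ℕ := (pz z).filter (fun p => w < p)

lemma mem_PW {w z p : ℕ} : p ∈ PW w z ↔ (p ≤ z ∧ p.Prime) ∧ w < p := by
  unfold PW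
  rw [mem_filter, mem_pz]

/-- the sum of `1 / l` over the primes `l` in `(w, z]` which divide `h` -/
noncomputable def sa (w z h : ℕ) : ℝ := ∑ p ∈ (PW w z).filter (fun p => p ∣ h), 1 / (p : ℝ)

lemma sa_nonneg (w z h : ℕ) : 0 ≤ sa w z h := sum_nonneg fun _ _ => by positivity

lemma sum_prod_le (Q : Finset ℕ) (hQ : ∀ p ∈ Q, p.Prime) (f : ℕ → ℝ) (hf : ∀ p ∈ Q, 0 ≤ f p)
    (x : ℕ) : ∑ h ∈ Icc 1 x, ∏ p ∈ Q, (if p ∣ h then 1 + f p else 1) ≤
      x * ∏ p ∈ Q, (1 + f p / p) := by
  have h1 : ∀ h : ℕ, ∏ p ∈ Q, (if p ∣ h then 1 + f p else 1) =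
      ∑ T ∈ Q.powerset, (∏ p ∈ T, f p) * (if (∏ p ∈ T, p) ∣ h then 1 else 0) := by
    intro h
    have e1 : ∏ p ∈ Q, (if p ∣ h then 1 + f p else 1) =
        ∏ p ∈ Q, ((if p ∣ h then f p else 0) + 1) := by
      apply prod_congr rfl
      intro p _
      split_ifs <;> ring
    rw [e1, prod_add]
    apply sum_congr rfl
    intro T hT
    rw [prod_const_one, mul_one]
    have hTp : ∀ p ∈ T, p.Prime := fun p hp => hQ p (mem_powerset.1 hT hp)
    by_cases hd : (∏ p ∈ T, p) ∣ h
    · rw [if_pos hd, mul_one]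
      apply prod_congr rfl
      intro p hp
      rw [if_pos ((dvd_prod_of_mem _ hp).trans hd)]
    · rw [if_neg hd, mul_zero]
      have h2 : ¬ ∀ p ∈ T, p ∣ h := fun h3 =>
        hd ((Pool.Agent.H373R2.T7.prod_dvd_iff T hTp h).1 h3)
      push Not at h2
      obtain ⟨p, hp, hpd⟩ := h2
      exact prod_eq_zero hp (if_neg hpd)
  rw [sum_congr rfl fun h _ => h1 h, sum_comm]
  have h2 : ∀ T ∈ Q.powerset, ∑ h ∈ Icc 1 x, (∏ p ∈ T, f p) * (if (∏ p ∈ T, p) ∣ h then (1 : ℝ) else 0)
      ≤ (∏ p ∈ T, f p / p) * x := by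
    intro T hT
    have hTf : 0 ≤ ∏ p ∈ T, f p := prod_nonneg fun p hp => hf p (mem_powerset.1 hT hp)
    rw [← mul_sum]
    have h3 : ∑ h ∈ Icc 1 x, (if (∏ p ∈ T, p) ∣ h then (1 : ℝ) else 0) ≤ x / ((∏ p ∈ T, p : ℕ) : ℝ) := by
      rw [← sum_filter, sum_const, nsmul_eq_mul, mul_one]
      have h4 : ((Icc 1 x).filter (fun h => (∏ p ∈ T, p) ∣ h)).card = x / ∏ p ∈ T, p := by
        have := Nat.Ioc_filter_dvd_card_eq_div x (∏ p ∈ T, p)
        rw [← this]
        congr 1
      rw [h4]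
      exact Nat.cast_div_le
    calc (∏ p ∈ T, f p) * ∑ h ∈ Icc 1 x, (if (∏ p ∈ T, p) ∣ h then (1 : ℝ) else 0)
        ≤ (∏ p ∈ T, f p) * (x / ((∏ p ∈ T, p : ℕ) : ℝ)) := mul_le_mul_of_nonneg_left h3 hTf
      _ = (∏ p ∈ T, f p / p) * x := by
          rw [prod_div_distrib]
          push_cast
          ring
  refine (sum_le_sum h2).trans (le_of_eq ?_)
  rw [← sum_mul, mul_comm]
  congr 1
  rw [show (fun T => ∏ p ∈ T, f p / (p : ℝ)) = fun T => ∏ p ∈ T, (f p / (p : ℝ)) from rfl]
  rw [← prod_add_one]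
  apply prod_congr rfl
  intro p _
  ring

lemma exp_sa (w z h : ℕ) (t : ℝ) : Real.exp (t * sa w z h) =
    ∏ p ∈ PW w z, (if p ∣ h then 1 + (Real.exp (t / p) - 1) else 1) := by
  unfold sa
  rw [mul_sum, Real.exp_sum, prod_filter]
  apply prod_congr rfl
  intro p _
  split_ifs
  · rw [mul_one_div]
    ring
  · rfl

lemma sum_sq_le {w z : ℕ} (hw : 1 ≤ w) : ∑ p ∈ PW w z, 1 / (p : ℝ) ^ 2 ≤ 1 / (w : ℝ) := by
  have h1 : ∑ p ∈ PW w z, 1 / (p : ℝ) ^ 2 ≤ ∑ n ∈ Ioc w (max z w), 1 / (n : ℝ) ^ 2 := by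
    apply sum_le_sum_of_subset_of_nonneg
    · intro p hp
      rw [mem_PW] at hp
      rw [mem_Ioc]
      exact ⟨hp.2, le_max_of_le_left hp.1.1⟩
    · intro _ _ _
      positivity
  have h2 := sum_Ioc_inv_sq_le_sub (α := ℝ) (k := w) (n := max z w) (by omega) (le_max_right _ _)
  have h3 : ∑ n ∈ Ioc w (max z w), 1 / (n : ℝ) ^ 2 = ∑ n ∈ Ioc w (max z w), ((n : ℝ) ^ 2)⁻¹ :=
    sum_congr rfl fun n _ => one_div _
  have h4 : (0 : ℝ) ≤ ((max z w : ℕ) : ℝ)⁻¹ := by positivity
  rw [h3] at h1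
  rw [one_div]
  linarith

lemma sum_exp_le {w z : ℕ} (hw : 1 ≤ w) {t : ℝ} (ht0 : 0 ≤ t) (ht : t ≤ w) (x : ℕ) :
    ∑ h ∈ Icc 1 x, Real.exp (t * sa w z h) ≤ Real.exp 2 * x := by
  have hp0 : ∀ p ∈ PW w z, (0 : ℝ) < p := fun p hp => by exact_mod_cast (mem_PW.1 hp).1.2.pos
  have hle : ∀ p ∈ PW w z, t / p ≤ 1 := by
    intro p hp
    rw [div_le_one (hp0 p hp)]
    have : (w : ℝ) ≤ p := by exact_mod_cast (mem_PW.1 hp).2.le
    linarith
  have h1 := sum_prod_le (PW w z) (fun p hp => (mem_PW.1 hp).1.2) (fun p => Real.exp (t / p) - 1)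
    (fun p hp => by
      have := Real.one_le_exp (div_nonneg ht0 (hp0 p hp).le)
      linarith) x
  rw [sum_congr rfl fun h _ => exp_sa w z h t]
  refine h1.trans ?_
  rw [mul_comm]
  apply mul_le_mul_of_nonneg_right _ (Nat.cast_nonneg _)
  calc ∏ p ∈ PW w z, (1 + (Real.exp (t / p) - 1) / p)
      ≤ ∏ p ∈ PW w z, Real.exp (2 * t * (1 / (p : ℝ) ^ 2)) := by
        apply prod_le_prod
        · intro p hp
          have := Real.one_le_exp (div_nonneg ht0 (hp0 p hp).le)
          have h2 := hp0 p hp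
          positivity
        · intro p hp
          have h2 := hp0 p hp
          have h3 : Real.exp (t / p) - 1 ≤ 2 * (t / p) := by
            have h4 := Real.abs_exp_sub_one_le (x := t / p) (by
              rw [abs_of_nonneg (div_nonneg ht0 h2.le)]
              exact hle p hp)
            rw [abs_of_nonneg (div_nonneg ht0 h2.le)] at h4
            exact (le_abs_self _).trans h4
          have h5 : (Real.exp (t / p) - 1) / p ≤ 2 * t * (1 / (p : ℝ) ^ 2) := by
            calc (Real.exp (t / p) - 1) / p ≤ 2 * (t / p) / p := by gcongr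
              _ = _ := by field_simp
          have := Real.add_one_le_exp (2 * t * (1 / (p : ℝ) ^ 2))
          linarith
    _ = Real.exp (2 * t * ∑ p ∈ PW w z, 1 / (p : ℝ) ^ 2) := by
        rw [← Real.exp_sum, mul_sum]
    _ ≤ Real.exp 2 := by
        apply Real.exp_le_exp.2
        have h2 := sum_sq_le (z := z) hw
        have hw0 : (0 : ℝ) < w := by exact_mod_cast hw
        calc 2 * t * ∑ p ∈ PW w z, 1 / (p : ℝ) ^ 2 ≤ 2 * t * (1 / w) := by gcongr
          _ = 2 * (t / w) := by ring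
          _ ≤ 2 * 1 := by
              have : t / w ≤ 1 := by rwa [div_le_one hw0]
              linarith
          _ = 2 := by ring

/-- the distance of two natural numbers -/
def df (a b : ℕ) : ℕ := (a - b) + (b - a)

lemma df_comm (a b : ℕ) : df a b = df b a := by
  unfold df
  omega

/-- the average over pairs of different primes -/
theorem prime_pairs : ∃ C : ℝ, 1 ≤ C ∧ ∃ x0 : ℕ, ∀ x : ℕ, x0 ≤ x → ∀ (w z : ℕ) (t : ℝ), 1 ≤ w →
    0 ≤ t → 2 * t ≤ w →
    ∑ p ∈ pz x, ∑ p' ∈ (pz x).filter (fun p' => p' ≠ p), Real.exp (t * sa w z (df p p')) ≤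
      C * (x / Real.log x) ^ 2 := by
  obtain ⟨C1, hC1, A, x0, hT⟩ := Pool.Agent.H646.TuplesM.tuple_bound 2 (by norm_num)
  obtain ⟨C2, hC2, hR⟩ := Pool.Agent.H646.MomentM.rat_moment (A * 2)
  refine ⟨C1 * (C2 + Real.exp 2) + 1, ?_, max x0 1, fun x hx w z t hw ht0 ht => ?_⟩
  · have : 0 ≤ C1 * (C2 + Real.exp 2) := by positivity
    linarith
  have hx0 : x0 ≤ x := (le_max_left _ _).trans hx
  have hx1 : 1 ≤ x := (le_max_right _ _).trans hx
  -- one difference
  have h1 : ∀ h : ℕ, 1 ≤ h → (((Icc 1 x).filter (fun n => n.Prime ∧ (n + h).Prime)).card : ℝ) ≤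
      C1 * x / Real.log x ^ 2 * Pool.Agent.H646.rat h ^ A := by
    intro h hh
    have h2 := hT x hx0 (fun i : Fin 2 => if i = 0 then 0 else h) (by
      intro i j hij
      fin_cases i <;> fin_cases j <;> simp_all
      omega)
    have e1 : (univ : Finset (Fin 2 × Fin 2)).filter (fun q => q.1 < q.2) = {(0, 1)} := by decide
    rw [e1, prod_singleton] at h2
    simp only [Fin.isValue, one_ne_zero, if_false, if_true, Nat.sub_zero] at h2
    refine le_trans ?_ h2
    apply le_of_eq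
    congr 2
    apply filter_congr
    intro n _
    rw [Fin.forall_fin_two]
    simp
  -- sum over the pairs with `p < p'`
  have h2 : ∑ p ∈ pz x, ∑ p' ∈ (pz x).filter (fun p' => p < p'), Real.exp (t * sa w z (df p p')) ≤
      ∑ h ∈ Icc 1 x, (((Icc 1 x).filter (fun n => n.Prime ∧ (n + h).Prime)).card : ℝ) *
        Real.exp (t * sa w z h) := by
    have e1 : ∀ h ∈ Icc 1 x, (((Icc 1 x).filter (fun n => n.Prime ∧ (n + h).Prime)).card : ℝ) *
        Real.exp (t * sa w z h) = ∑ n ∈ (Icc 1 x).filter (fun n => n.Prime ∧ (n + h).Prime),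
          Real.exp (t * sa w z h) := by
      intro h _
      rw [sum_const, nsmul_eq_mul]
    rw [sum_congr rfl e1, sum_sigma', sum_sigma']
    have h3 := Pool.Agent.H646.TuplesM.sum_le_of_inj
      ((pz x).sigma (fun p => (pz x).filter (fun p' => p < p')))
      (fun q : (_ : ℕ) × ℕ => (⟨q.2 - q.1, q.1⟩ : (_ : ℕ) × ℕ))
      ((Icc 1 x).sigma (fun h => (Icc 1 x).filter (fun n => n.Prime ∧ (n + h).Prime)))
      (fun b => Real.exp (t * sa w z b.1)) (fun _ => (Real.exp_pos _).le) (by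
        intro q hq
        rw [mem_sigma, mem_filter, mem_pz, mem_pz] at hq
        obtain ⟨⟨h3, h4⟩, ⟨h5, h6⟩, h7⟩ := hq
        rw [mem_sigma, mem_filter, mem_Icc, mem_Icc]
        simp only
        refine ⟨⟨by omega, by omega⟩, ⟨h4.one_le, h3⟩, h4, ?_⟩
        rw [show q.1 + (q.2 - q.1) = q.2 by omega]
        exact h6) (by
        intro q hq q' hq' he
        rw [mem_sigma, mem_filter, mem_pz, mem_pz] at hq hq'
        simp only [Sigma.mk.injEq, heq_eq_eq] at he
        obtain ⟨_, _, h7⟩ := hq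
        obtain ⟨_, _, h8⟩ := hq'
        obtain ⟨q1, q2⟩ := q
        obtain ⟨r1, r2⟩ := q'
        simp only at he h7 h8 ⊢
        obtain ⟨h9, h10⟩ := he
        subst h10
        have : q2 = r2 := by omega
        rw [this])
    refine le_trans (le_of_eq ?_) h3
    apply sum_congr rfl
    intro q hq
    rw [mem_sigma, mem_filter, mem_pz, mem_pz] at hq
    have : df q.1 q.2 = q.2 - q.1 := by
      unfold df
      omega
    rw [this]
  have h3 : ∑ p ∈ pz x, ∑ p' ∈ (pz x).filter (fun p' => p' ≠ p), Real.exp (t * sa w z (df p p')) =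
      2 * ∑ p ∈ pz x, ∑ p' ∈ (pz x).filter (fun p' => p < p'), Real.exp (t * sa w z (df p p')) := by
    have e1 : ∀ p ∈ pz x, ∑ p' ∈ (pz x).filter (fun p' => p' ≠ p), Real.exp (t * sa w z (df p p')) =
        ∑ p' ∈ (pz x).filter (fun p' => p < p'), Real.exp (t * sa w z (df p p')) +
        ∑ p' ∈ (pz x).filter (fun p' => p' < p), Real.exp (t * sa w z (df p p')) := by
      intro p _
      rw [← sum_union]
      · apply sum_congr _ fun _ _ => rfl
        ext p'
        rw [mem_union, mem_filter, mem_filter, mem_filter]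
        constructor
        · rintro ⟨h4, h5⟩
          rcases lt_or_gt_of_ne h5 with h6 | h6
          · exact Or.inr ⟨h4, h6⟩
          · exact Or.inl ⟨h4, h6⟩
        · rintro (⟨h4, h5⟩ | ⟨h4, h5⟩)
          · exact ⟨h4, h5.ne'⟩
          · exact ⟨h4, h5.ne⟩
      · rw [disjoint_left]
        intro p' h4 h5
        rw [mem_filter] at h4 h5
        omega
    rw [sum_congr rfl e1, sum_add_distrib, two_mul]
    congr 1
    simp only [sum_filter]
    rw [sum_comm]
    apply sum_congr rfl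
    intro p _
    apply sum_congr rfl
    intro p' _
    rw [df_comm]
  rw [h3]
  have hL : 0 ≤ C1 * x / Real.log x ^ 2 := by positivity
  have h4 : ∑ h ∈ Icc 1 x, (((Icc 1 x).filter (fun n => n.Prime ∧ (n + h).Prime)).card : ℝ) *
        Real.exp (t * sa w z h) ≤ C1 * x / Real.log x ^ 2 * ((C2 + Real.exp 2) / 2 * x) := by
    calc ∑ h ∈ Icc 1 x, (((Icc 1 x).filter (fun n => n.Prime ∧ (n + h).Prime)).card : ℝ) *
          Real.exp (t * sa w z h)
        ≤ ∑ h ∈ Icc 1 x, C1 * x / Real.log x ^ 2 *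
          ((Pool.Agent.H646.rat h ^ (A * 2) + Real.exp (2 * t * sa w z h)) / 2) := by
          apply sum_le_sum
          intro h hh
          calc (((Icc 1 x).filter (fun n => n.Prime ∧ (n + h).Prime)).card : ℝ) *
                Real.exp (t * sa w z h)
              ≤ (C1 * x / Real.log x ^ 2 * Pool.Agent.H646.rat h ^ A) * Real.exp (t * sa w z h) :=
                mul_le_mul_of_nonneg_right (h1 h (mem_Icc.1 hh).1) (Real.exp_pos _).le
            _ = C1 * x / Real.log x ^ 2 * (Pool.Agent.H646.rat h ^ A * Real.exp (t * sa w z h)) := by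
                ring
            _ ≤ _ := by
                apply mul_le_mul_of_nonneg_left _ hL
                have e2 : Pool.Agent.H646.rat h ^ (A * 2) = (Pool.Agent.H646.rat h ^ A) ^ 2 := pow_mul _ _ _
                have e3 : Real.exp (2 * t * sa w z h) = Real.exp (t * sa w z h) ^ 2 := by
                  rw [← Real.exp_nat_mul]
                  congr 1
                  push_cast
                  ring
                rw [e2, e3]
                nlinarith [sq_nonneg (Pool.Agent.H646.rat h ^ A - Real.exp (t * sa w z h))]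
      _ = C1 * x / Real.log x ^ 2 * ((∑ h ∈ Icc 1 x, Pool.Agent.H646.rat h ^ (A * 2) +
            ∑ h ∈ Icc 1 x, Real.exp (2 * t * sa w z h)) / 2) := by
          rw [← mul_sum, ← sum_div, sum_add_distrib]
      _ ≤ C1 * x / Real.log x ^ 2 * ((C2 + Real.exp 2) / 2 * x) := by
          apply mul_le_mul_of_nonneg_left _ hL
          have h5 := hR x
          have h6 := sum_exp_le (z := z) hw (t := 2 * t) (by linarith) ht x
          linarith
  have h5 := h2.trans h4
  calc 2 * ∑ p ∈ pz x, ∑ p' ∈ (pz x).filter (fun p' => p < p'), Real.exp (t * sa w z (df p p'))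
      ≤ 2 * (C1 * x / Real.log x ^ 2 * ((C2 + Real.exp 2) / 2 * x)) := by linarith
    _ = C1 * (C2 + Real.exp 2) * (x / Real.log x) ^ 2 := by ring
    _ ≤ _ := by
        apply mul_le_mul_of_nonneg_right _ (sq_nonneg _)
        linarith

end Pool.Agent.Q259.PK
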