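import Pool.Agent.Q259.PK.Mom2
import Pool.Agent.TH882.Bil

/-!
The moments of the number of representations `n = p + k`, `k ∈ B`, with weight `log p`.
-/

set_option autoImplicit false

namespace Pool.Agent.Q259.PK

open Finset
open Pool.Agent.H373R2.T7 (pz mem_pz Vz lamz nuB PerB Vz_pos lamz_nonneg Vz_le_one Vz_inv_small)

lemma pow_le_add {R M T : ℝ} (hR : 0 ≤ R) (hM : 0 ≤ M) (hRT : R ≤ T) (hMT : M ≤ T) (q : ℕ) :
    R ^ q ≤ M ^ q + q * T ^ (q - 1) * |R - M| := by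
  have h1 := abs_pow_sub_pow_le R M q
  have h2 : max |R| |M| ≤ T := by
    rw [abs_of_nonneg hR, abs_of_nonneg hM]
    exact max_le hRT hMT
  have h3 : max |R| |M| ^ (q - 1) ≤ T ^ (q - 1) := pow_le_pow_left₀ (by positivity) h2 _
  have h4 : R ^ q - M ^ q ≤ |R ^ q - M ^ q| := le_abs_self _
  have h5 : |R - M| * q * max |R| |M| ^ (q - 1) ≤ |R - M| * q * T ^ (q - 1) := by gcongr
  nlinarith

lemma lamz_le_log {z n : ℕ} {L : ℝ} (h : (Vz z)⁻¹ ≤ L) : lamz z n ≤ L := by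
  have := Vz_pos z
  unfold lamz
  split_ifs
  · exact h
  · exact le_trans (by positivity) h

/-- **The moments of the number of representations.** -/
theorem prime_moment (q a : ℕ) (hq : 2 ≤ q) (ε : ℝ) (hε : 0 < ε) (hε1 : ε ≤ 1) : ∃ K : ℝ, 1 ≤ K ∧
    ∃ x0 : ℕ, ∀ X x : ℕ, x0 ≤ x → X ≤ x → x ≤ 2 * X → ∀ (w u : ℕ) (lam : ℝ) (B : Finset ℕ),
    u + X ≤ 2 * x → 1 ≤ lam → K * lam ≤ w → (w : ℝ) ≤ Real.log x → B ⊆ pz x → (∀ k ∈ B, k ≤ u) →
    (x : ℝ) / Real.log x ≤ Real.exp lam * B.card → (x : ℝ) ≤ B.card * Real.log x ^ a →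
    ∑ n ∈ Icc 1 X, (∑ k ∈ B, ArithmeticFunction.vonMangoldt (u + n - k)) ^ q ≤
      (1 + ε) * X * ((Vz w) ^ (q - 1))⁻¹ * (B.card : ℝ) ^ q := by
  obtain ⟨B0, hB0⟩ := Pool.Agent.TH882.AG.bilK (q + a + 1)
  obtain ⟨Z0, hZ0⟩ := hB0 (B0 + 2)
  obtain ⟨K, hK1, x1, hx1⟩ := model_moment q (B0 + 3) hq (ε / 2) (by positivity) (by linarith)
  obtain ⟨x2, hx2⟩ := Vz_inv_small (B0 + 3)
  obtain ⟨x3, hx3⟩ := log_pow_small 1 a
  have hlim : Filter.Tendsto (fun N : ℕ => Real.log (N : ℝ)) Filter.atTop Filter.atTop :=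
    Real.tendsto_log_atTop.comp (tendsto_natCast_atTop_atTop (R := ℝ))
  obtain ⟨x4, hx4⟩ := Filter.eventually_atTop.1
    (hlim.eventually_ge_atTop (max (2 : ℝ) (max (2 ^ (B0 + 2)) (16 * q / ε))))
  refine ⟨K, hK1, 2 * (Z0 + x1 + x2 + x3 + x4 + 4), ?_⟩
  intro X x hx hXx hxX w u lam B huX hlam hw hwx hB hu hBl hBa
  have hX1 : x1 ≤ X := by omega
  have hX2 : x2 ≤ X := by omega
  have hX4 : x4 ≤ X := by omega
  have hX44 : 4 ≤ X := by omega
  have hLX := hx4 X hX4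
  have hLX2 : 2 ≤ Real.log X := (le_max_left _ _).trans hLX
  have hLXr := (le_max_right _ _).trans hLX
  have hLXB : (2 : ℝ) ^ (B0 + 2) ≤ Real.log X := (le_max_left _ _).trans hLXr
  have hLXe : 16 * q / ε ≤ Real.log X := (le_max_right _ _).trans hLXr
  have hX0 : (0 : ℝ) < X := by exact_mod_cast (show 0 < X by omega)
  have hx0 : (0 : ℝ) < x := by exact_mod_cast (show 0 < x by omega)
  have hXxR : (X : ℝ) ≤ x := by exact_mod_cast hXx
  have hxXR : (x : ℝ) ≤ 2 * X := by exact_mod_cast hxX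
  have hlogXx : Real.log X ≤ Real.log x := Real.log_le_log hX0 hXxR
  set Z : ℕ := 2 * x with hZ
  have hZR : (Z : ℝ) = 2 * x := by
    rw [hZ]
    push_cast
    ring
  have hlogxZ : Real.log x ≤ Real.log Z := Real.log_le_log hx0 (by rw [hZR]; linarith)
  have hlogZX : Real.log Z ≤ 2 * Real.log X := by
    have h1 : (Z : ℝ) ≤ (X : ℝ) ^ 2 := by
      have h2 : (4 : ℝ) ≤ X := by exact_mod_cast hX44
      rw [hZR]
      nlinarith
    calc Real.log Z ≤ Real.log ((X : ℝ) ^ 2) := Real.log_le_log (by rw [hZR]; linarith) h1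
      _ = 2 * Real.log X := by
          rw [Real.log_pow]
          norm_num
  set L := Real.log Z with hL
  have hL2 : 2 ≤ L := by linarith
  set z : ℕ := ⌈L ^ (B0 + 1)⌉₊ with hz
  have hz1 : L ^ (B0 + 1) ≤ z := Nat.le_ceil _
  have hLp : (1 : ℝ) ≤ L ^ (B0 + 1) := one_le_pow₀ (by linarith)
  have hz2 : (z : ℝ) ≤ L ^ (B0 + 2) := by
    have h1 : (z : ℝ) < L ^ (B0 + 1) + 1 := Nat.ceil_lt_add_one (by positivity)
    have h2 : L ^ (B0 + 2) = L ^ (B0 + 1) * L := by ring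
    rw [h2]
    nlinarith
  have hz3 : (z : ℝ) ≤ Real.log X ^ (B0 + 3) := by
    calc (z : ℝ) ≤ L ^ (B0 + 2) := hz2
      _ ≤ (2 * Real.log X) ^ (B0 + 2) := pow_le_pow_left₀ (by linarith) hlogZX _
      _ = 2 ^ (B0 + 2) * Real.log X ^ (B0 + 2) := mul_pow _ _ _
      _ ≤ Real.log X * Real.log X ^ (B0 + 2) := by
          apply mul_le_mul_of_nonneg_right hLXB
          positivity
      _ = _ := by ring
  have hLz : L ≤ z := by
    refine le_trans ?_ hz1
    calc L = L ^ 1 := (pow_one _).symm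
      _ ≤ L ^ (B0 + 1) := pow_le_pow_right₀ (by linarith) (by omega)
  have hzB : L ^ B0 ≤ z := le_trans (pow_le_pow_right₀ (by linarith) (by omega)) hz1
  have hwz : w ≤ z := by
    have : (w : ℝ) ≤ z := by linarith
    exact_mod_cast this
  have hz0 : 1 ≤ z := by
    have : (1 : ℝ) ≤ z := by linarith
    exact_mod_cast this
  have hBs : Real.sqrt x ≤ B.card := by
    have h1 := hx3 x (by omega)
    rw [one_mul] at h1
    have h2 : 0 < Real.sqrt x := Real.sqrt_pos.2 hx0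
    have h3 : Real.sqrt x * Real.sqrt x = x := Real.mul_self_sqrt hx0.le
    have h4 : (B.card : ℝ) * Real.log x ^ a ≤ B.card * Real.sqrt x :=
      mul_le_mul_of_nonneg_left h1 (Nat.cast_nonneg _)
    have h5 : Real.sqrt x * Real.sqrt x ≤ B.card * Real.sqrt x := by linarith
    exact le_of_mul_le_mul_right h5 h2
  have hmod := hx1 X x hX1 hXx w z u lam B hlam hw hwz hz3 hB hu hBl hBs
  have hVz : (Vz z)⁻¹ ≤ L := (hx2 X hX2 z hz0 hz3).trans (hlogXx.trans hlogxZ)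
  -- the transfer
  have hbil := hZ0 Z (by omega) z hzB hz2 ((Icc 1 X).image (fun n => u + n)) B
    (by
      intro N hN
      obtain ⟨n, hn, rfl⟩ := mem_image.1 hN
      rw [mem_Icc] at hn
      omega)
    (by
      intro k hk
      have := mem_pz.1 (hB hk)
      exact ⟨this.2.one_le, by omega⟩)
    (by
      intro N hN k hk
      obtain ⟨n, hn, rfl⟩ := mem_image.1 hN
      rw [mem_Icc] at hn
      have := hu k hk
      omega)
  rw [sum_image (fun a _ b _ h => by simpa using h)] at hbil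
  set Rr : ℕ → ℝ := fun n => ∑ k ∈ B, ArithmeticFunction.vonMangoldt (u + n - k) with hRr
  set Mm : ℕ → ℝ := fun n => ∑ k ∈ B, lamz z (u + n - k) with hMm
  have hbil' : ∑ n ∈ Icc 1 X, |Rr n - Mm n| ≤ (Z : ℝ) * Z / L ^ (q + a + 1) := by
    refine le_trans (le_of_eq ?_) hbil
    apply sum_congr rfl
    intro n _
    rw [hRr, hMm]
    simp only
    rw [← sum_sub_distrib]
  have hR0 : ∀ n, 0 ≤ Rr n := fun n => sum_nonneg fun _ _ => ArithmeticFunction.vonMangoldt_nonneg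
  have hM0 : ∀ n, 0 ≤ Mm n := fun n => sum_nonneg fun _ _ => lamz_nonneg _ _
  have hRT : ∀ n ∈ Icc 1 X, Rr n ≤ B.card * L := by
    intro n hn
    rw [mem_Icc] at hn
    rw [hRr]
    simp only
    rw [← nsmul_eq_mul]
    apply sum_le_card_nsmul
    intro k hk
    refine ArithmeticFunction.vonMangoldt_le_log.trans ?_
    have := hu k hk
    apply Real.log_le_log
    · exact_mod_cast (show 0 < u + n - k by omega)
    · exact_mod_cast (show u + n - k ≤ Z by omega)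
  have hMT : ∀ n, Mm n ≤ B.card * L := by
    intro n
    rw [hMm]
    simp only
    rw [← nsmul_eq_mul]
    apply sum_le_card_nsmul
    intro k _
    exact lamz_le_log hVz
  have hBc : (0 : ℝ) ≤ B.card := Nat.cast_nonneg _
  have hVw := Vz_pos w
  have hVw1 : 1 ≤ ((Vz w) ^ (q - 1))⁻¹ :=
    one_le_inv_iff₀.2 ⟨by positivity, pow_le_one₀ hVw.le (Vz_le_one w)⟩
  have hLa : (x : ℝ) ≤ B.card * L ^ a := by
    refine hBa.trans ?_
    apply mul_le_mul_of_nonneg_left _ hBc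
    exact pow_le_pow_left₀ (by linarith) hlogxZ _
  have herr : q * (B.card * L) ^ (q - 1) * ((Z : ℝ) * Z / L ^ (q + a + 1)) ≤
      ε / 2 * X * ((Vz w) ^ (q - 1))⁻¹ * (B.card : ℝ) ^ q := by
    have h1 : (L : ℝ) ^ (q + a + 1) = L ^ (q - 1) * L ^ a * L * L := by
      rw [show q + a + 1 = (q - 1) + a + 1 + 1 by omega]
      ring
    have h2 : q * (B.card * L) ^ (q - 1) * ((Z : ℝ) * Z / L ^ (q + a + 1)) =
        (B.card : ℝ) ^ (q - 1) * (4 * q * x * x / (L ^ a * L * L)) := by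
      rw [h1, mul_pow, hZR]
      field_simp
      ring
    have h3 : 4 * q * (x : ℝ) * x / (L ^ a * L * L) ≤ ε / 2 * X * B.card := by
      rw [div_le_iff₀ (by positivity)]
      have h4 : 16 * q ≤ ε * L := by
        rw [div_le_iff₀ hε] at hLXe
        nlinarith
      have h5 : 16 * q ≤ ε * (L * L) := by nlinarith
      calc 4 * q * (x : ℝ) * x ≤ 4 * q * (2 * X) * (B.card * L ^ a) := by gcongr
        _ = (16 * q) * (X * (B.card * L ^ a)) / 2 := by ring
        _ ≤ (ε * (L * L)) * (X * (B.card * L ^ a)) / 2 := by gcongr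
        _ = _ := by ring
    rw [h2]
    calc (B.card : ℝ) ^ (q - 1) * (4 * q * x * x / (L ^ a * L * L))
        ≤ (B.card : ℝ) ^ (q - 1) * (ε / 2 * X * B.card) := by gcongr
      _ = ε / 2 * X * 1 * (B.card : ℝ) ^ q := by
          have : (B.card : ℝ) ^ q = (B.card : ℝ) ^ (q - 1) * B.card := by
            rw [← pow_succ]
            congr 1
            omega
          rw [this]
          ring
      _ ≤ _ := by gcongr
  calc ∑ n ∈ Icc 1 X, Rr n ^ q
      ≤ ∑ n ∈ Icc 1 X, (Mm n ^ q + q * (B.card * L) ^ (q - 1) * |Rr n - Mm n|) := by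
        apply sum_le_sum
        intro n hn
        exact pow_le_add (hR0 n) (hM0 n) (hRT n hn) (hMT n) q
    _ = ∑ n ∈ Icc 1 X, Mm n ^ q + q * (B.card * L) ^ (q - 1) * ∑ n ∈ Icc 1 X, |Rr n - Mm n| := by
        rw [sum_add_distrib, mul_sum]
    _ ≤ (1 + ε / 2) * X * ((Vz w) ^ (q - 1))⁻¹ * (B.card : ℝ) ^ q +
          q * (B.card * L) ^ (q - 1) * ((Z : ℝ) * Z / L ^ (q + a + 1)) := by
        apply add_le_add hmod
        apply mul_le_mul_of_nonneg_left hbil'
        positivity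
    _ ≤ (1 + ε / 2) * X * ((Vz w) ^ (q - 1))⁻¹ * (B.card : ℝ) ^ q +
          ε / 2 * X * ((Vz w) ^ (q - 1))⁻¹ * (B.card : ℝ) ^ q := by linarith
    _ = _ := by ring

end Pool.Agent.Q259.PK
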