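import Pool.Agent.Q259.PK.Sub

/-!
Upper bound for the number of `n` such that several translates of `n` have no small prime factors, and
for the moments of the number of representations in the sieve model.
-/

set_option autoImplicit false

namespace Pool.Agent.Q259.PK

open Finset
open Pool.Agent.H373R2.T7 (pz mem_pz Vz lamz nuB PerB Vz_pos lamz_nonneg)

lemma root_iff {p c m : ℕ} (hm : m < p) : p ∣ c + m ↔ m = (p - c % p) % p := by
  have hp : 0 < p := by omega
  have hs : c % p < p := Nat.mod_lt _ hp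
  rw [Nat.dvd_iff_mod_eq_zero, Nat.add_mod, Nat.mod_eq_of_lt hm]
  rcases Nat.eq_zero_or_pos (c % p) with h | h
  · rw [h, zero_add, Nat.sub_zero, Nat.mod_self, Nat.mod_eq_of_lt hm]
  · rw [Nat.mod_eq_of_lt (show p - c % p < p by omega)]
    rcases Nat.lt_or_ge (c % p + m) p with h1 | h1
    · rw [Nat.mod_eq_of_lt h1]
      omega
    · rw [Nat.mod_eq_sub_mod h1, Nat.mod_eq_of_lt (by omega)]
      omega

/-- the condition `p ∣ u + n - k i` for some `i` -/
def Qk {q : ℕ} (u : ℕ) (k : Fin q → ℕ) (p n : ℕ) : Prop := ∃ i, p ∣ (u - k i) + n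

/-- the pairs of indices -/
def prs (q : ℕ) : Finset (Fin q × Fin q) := (univ : Finset (Fin q × Fin q)).filter (fun r => r.1 < r.2)

lemma range_Qk {q : ℕ} (u : ℕ) (k : Fin q → ℕ) (p : ℕ) [DecidablePred (fun r => Qk u k p r)] :
    (range p).filter (fun r => Qk u k p r) ⊆
      univ.image (fun i : Fin q => (p - (u - k i) % p) % p) := by
  intro m hm
  rw [mem_filter, mem_range] at hm
  obtain ⟨i, hi⟩ := hm.2
  exact mem_image.2 ⟨i, mem_univ i, ((root_iff hm.1).1 hi).symm⟩

lemma nu_le {q : ℕ} (u : ℕ) (k : Fin q → ℕ) (p : ℕ) : nuB (Qk u k) p ≤ q := by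
  classical
  unfold nuB
  refine (card_le_card (range_Qk u k p)).trans (card_image_le.trans ?_)
  simp

lemma range_Qk' {q : ℕ} (u : ℕ) (k : Fin q → ℕ) {p : ℕ} (hp : 0 < p)
    [DecidablePred (fun r => Qk u k p r)] :
    (range p).filter (fun r => Qk u k p r) =
      univ.image (fun i : Fin q => (p - (u - k i) % p) % p) := by
  apply subset_antisymm (range_Qk u k p)
  intro m hm
  obtain ⟨i, _, hi⟩ := mem_image.1 hm
  have hmp : m < p := by
    rw [← hi]
    exact Nat.mod_lt _ hp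
  rw [mem_filter, mem_range]
  exact ⟨hmp, i, (root_iff hmp).2 hi.symm⟩

lemma one_le_nu {q : ℕ} (hq : 1 ≤ q) (u : ℕ) (k : Fin q → ℕ) {p : ℕ} (hp : 0 < p) :
    1 ≤ nuB (Qk u k) p := by
  classical
  unfold nuB
  rw [range_Qk' u k hp]
  exact card_pos.2 ⟨_, mem_image.2 ⟨⟨0, hq⟩, mem_univ _, rfl⟩⟩

lemma le_nu_add {q : ℕ} {u : ℕ} {k : Fin q → ℕ} (hk : ∀ i, k i ≤ u) {p : ℕ} (hp : 0 < p) :
    q ≤ nuB (Qk u k) p + ((prs q).filter (fun r => p ∣ df (k r.1) (k r.2))).card := by
  classical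
  set f : Fin q → ℕ := fun i => (p - (u - k i) % p) % p with hf
  have hfp : ∀ i, f i < p := fun i => Nat.mod_lt _ hp
  have hroot : ∀ i j, f i = f j → p ∣ df (k i) (k j) := by
    intro i j h
    have h1 := (root_iff (hfp i) (c := u - k i)).2 rfl
    have h2 := (root_iff (hfp j) (c := u - k j)).2 rfl
    rw [← h] at h2
    have hi := hk i
    have hj := hk j
    unfold df
    rcases le_total (k i) (k j) with h3 | h3
    · have h4 := Nat.dvd_sub h1 h2
      rw [show u - k i + f i - (u - k j + f i) = k i - k j + (k j - k i) by omega] at h4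
      exact h4
    · have h4 := Nat.dvd_sub h2 h1
      rw [show u - k j + f i - (u - k i + f i) = k i - k j + (k j - k i) by omega] at h4
      exact h4
  have e1 : nuB (Qk u k) p = (univ.image f).card := by
    unfold nuB
    rw [range_Qk' u k hp]
  rw [e1]
  set G := (univ : Finset (Fin q)).filter (fun i => ∀ j, j < i → f j ≠ f i) with hG
  have h1 : G.card ≤ (univ.image f).card := by
    rw [← card_image_of_injOn (s := G) (f := f)]
    · exact card_le_card (image_subset_image (subset_univ _))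
    · intro i hi j hj hij
      rw [hG, mem_coe, mem_filter] at hi hj
      by_contra hne
      rcases lt_or_gt_of_ne hne with h2 | h2
      · exact hj.2 i h2 hij
      · exact hi.2 j h2 hij.symm
  have h2 : ((univ : Finset (Fin q)).filter (fun i => ¬ ∀ j, j < i → f j ≠ f i)).card ≤
      ((prs q).filter (fun r => p ∣ df (k r.1) (k r.2))).card := by
    have hex : ∀ i ∈ (univ : Finset (Fin q)).filter (fun i => ¬ ∀ j, j < i → f j ≠ f i),
        ∃ j, j < i ∧ f j = f i := by
      intro i hi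
      have := (mem_filter.1 hi).2
      push Not at this
      exact this
    choose! g hg using hex
    apply card_le_card_of_injOn (fun i => (g i, i))
    · intro i hi
      obtain ⟨h3, h4⟩ := hg i hi
      rw [mem_coe, mem_filter, prs, mem_filter]
      exact ⟨⟨mem_univ _, h3⟩, hroot _ _ h4⟩
    · intro i _ j _ hij
      exact (Prod.ext_iff.1 hij).2
  have h3 := card_filter_add_card_filter_not (s := (univ : Finset (Fin q)))
    (fun i => ∀ j, j < i → f j ≠ f i)
  rw [card_univ, Fintype.card_fin] at h3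
  have h4 : G.card + ((univ : Finset (Fin q)).filter (fun i => ¬ ∀ j, j < i → f j ≠ f i)).card = q := by
    convert h3
  omega

lemma loc1 {y : ℝ} (hy0 : 0 < y) (hy : y ≤ 1 / 2) {ν q c : ℕ} (h1 : ν ≤ q) (h2 : q ≤ ν + c) :
    (1 - ν * y) * ((1 - y) ^ q)⁻¹ ≤ Real.exp (2 * y * c) := by
  have h3 : 0 < 1 - y := by linarith
  have h4 : 1 - (ν : ℝ) * y ≤ (1 - y) ^ ν := by
    have := one_add_mul_le_pow (show (-2 : ℝ) ≤ -y by linarith) ν
    rw [← sub_eq_add_neg] at this
    linarith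
  obtain ⟨d, rfl⟩ := Nat.exists_eq_add_of_le h1
  have h5 : (1 - y)⁻¹ ≤ Real.exp (2 * y) := by
    have h6 : (1 - y)⁻¹ ≤ 2 * y + 1 := by
      rw [inv_le_iff_one_le_mul₀ h3]
      nlinarith
    exact h6.trans (Real.add_one_le_exp _)
  calc (1 - ν * y) * ((1 - y) ^ (ν + d))⁻¹ ≤ (1 - y) ^ ν * ((1 - y) ^ (ν + d))⁻¹ := by gcongr
    _ = ((1 - y)⁻¹) ^ d := by
        rw [pow_add, inv_pow]
        field_simp
    _ ≤ Real.exp (2 * y) ^ d := pow_le_pow_left₀ (by positivity) h5 d
    _ = Real.exp (2 * y * d) := by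
        rw [← Real.exp_nat_mul]
        ring_nf
    _ ≤ _ := by
        apply Real.exp_le_exp.2
        have : (d : ℝ) ≤ c := by exact_mod_cast (show d ≤ c by omega)
        nlinarith

lemma loc2 {y : ℝ} (hy0 : 0 < y) (hy : y ≤ 1 / 2) {ν q : ℕ} (h1 : 1 ≤ ν) (h2 : 1 ≤ q) :
    (1 - ν * y) * ((1 - y) ^ q)⁻¹ ≤ ((1 - y) ^ (q - 1))⁻¹ := by
  have h3 : 0 < 1 - y := by linarith
  have h4 : 1 - (ν : ℝ) * y ≤ 1 - y := by
    have : (1 : ℝ) ≤ ν := by exact_mod_cast h1
    nlinarith
  obtain ⟨d, rfl⟩ := Nat.exists_eq_add_of_le h2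
  calc (1 - ν * y) * ((1 - y) ^ (1 + d))⁻¹ ≤ (1 - y) * ((1 - y) ^ (1 + d))⁻¹ := by gcongr
    _ = ((1 - y) ^ (1 + d - 1))⁻¹ := by
        rw [Nat.add_sub_cancel_left, pow_add, pow_one]
        field_simp

lemma pz_split {w z : ℕ} (h : w ≤ z) : pz z = pz w ∪ PW w z := by
  ext p
  rw [mem_union, mem_PW, mem_pz, mem_pz]
  constructor
  · rintro ⟨h1, h2⟩
    rcases Nat.lt_or_ge w p with h3 | h3
    · exact Or.inr ⟨⟨h1, h2⟩, h3⟩
    · exact Or.inl ⟨h3, h2⟩
  · rintro (⟨h1, h2⟩ | ⟨h1, _⟩)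
    · exact ⟨h1.trans h, h2⟩
    · exact h1

lemma pz_disj (w z : ℕ) : Disjoint (pz w) (PW w z) := by
  rw [disjoint_left]
  intro p h1 h2
  rw [mem_pz] at h1
  rw [mem_PW] at h2
  omega

lemma prod_bound {q : ℕ} (hq : 1 ≤ q) {w z u : ℕ} (hwz : w ≤ z) {k : Fin q → ℕ}
    (hk : ∀ i, k i ≤ u) :
    (∏ p ∈ pz z, (1 - (nuB (Qk u k) p : ℝ) / p)) * ((Vz z) ^ q)⁻¹ ≤
      ((Vz w) ^ (q - 1))⁻¹ * Real.exp (2 * ∑ r ∈ prs q, sa w z (df (k r.1) (k r.2))) := by
  have hy : ∀ p : ℕ, p.Prime → (0 : ℝ) < 1 / p ∧ 1 / (p : ℝ) ≤ 1 / 2 := by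
    intro p hp
    have h1 : (2 : ℝ) ≤ p := by exact_mod_cast hp.two_le
    exact ⟨by positivity, one_div_le_one_div_of_le (by norm_num) h1⟩
  have hnn : ∀ p : ℕ, p.Prime → (0 : ℝ) ≤ 1 - (nuB (Qk u k) p : ℝ) / p := by
    intro p hp
    have hp0 : (0 : ℝ) < p := by exact_mod_cast hp.pos
    rw [sub_nonneg, div_le_one hp0]
    exact_mod_cast Pool.Agent.H373R2.T7.nuB_le _ p
  have hone : ∀ p : ℕ, p.Prime → (0 : ℝ) < 1 - 1 / (p : ℝ) := by
    intro p hp
    linarith [(hy p hp).2]
  have e1 : (∏ p ∈ pz z, (1 - (nuB (Qk u k) p : ℝ) / p)) * ((Vz z) ^ q)⁻¹ =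
      ∏ p ∈ pz z, ((1 - (nuB (Qk u k) p : ℝ) * (1 / p)) * ((1 - 1 / (p : ℝ)) ^ q)⁻¹) := by
    unfold Vz
    rw [← prod_pow, ← prod_inv_distrib, ← prod_mul_distrib]
    apply prod_congr rfl
    intro p _
    rw [mul_one_div]
  rw [e1, pz_split hwz, prod_union (pz_disj w z)]
  apply mul_le_mul
  · unfold Vz
    rw [← prod_pow, ← prod_inv_distrib]
    apply prod_le_prod
    · intro p hp
      have hpp := (mem_pz.1 hp).2
      apply mul_nonneg
      · rw [mul_one_div]
        exact hnn p hpp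
      · have := hone p hpp
        positivity
    · intro p hp
      have hpp := (mem_pz.1 hp).2
      exact loc2 (hy p hpp).1 (hy p hpp).2 (one_le_nu hq u k hpp.pos) hq
  · calc ∏ p ∈ PW w z, ((1 - (nuB (Qk u k) p : ℝ) * (1 / p)) * ((1 - 1 / (p : ℝ)) ^ q)⁻¹)
        ≤ ∏ p ∈ PW w z, Real.exp (2 * (1 / (p : ℝ)) *
          (((prs q).filter (fun r => p ∣ df (k r.1) (k r.2))).card : ℝ)) := by
          apply prod_le_prod
          · intro p hp
            have hpp := (mem_PW.1 hp).1.2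
            apply mul_nonneg
            · rw [mul_one_div]
              exact hnn p hpp
            · have := hone p hpp
              positivity
          · intro p hp
            have hpp := (mem_PW.1 hp).1.2
            exact loc1 (hy p hpp).1 (hy p hpp).2 (nu_le u k p) (le_nu_add hk hpp.pos)
      _ = Real.exp (2 * ∑ r ∈ prs q, sa w z (df (k r.1) (k r.2))) := by
          rw [← Real.exp_sum]
          congr 1
          unfold sa
          rw [mul_sum]
          have e2 : ∀ r ∈ prs q, 2 * ∑ p ∈ (PW w z).filter (fun p => p ∣ df (k r.1) (k r.2)),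
              1 / (p : ℝ) = ∑ p ∈ PW w z, (if p ∣ df (k r.1) (k r.2) then 2 * (1 / (p : ℝ)) else 0) := by
            intro r _
            rw [mul_sum, sum_filter]
          rw [sum_congr rfl e2, sum_comm]
          apply sum_congr rfl
          intro p _
          rw [← sum_filter, sum_const, nsmul_eq_mul]
          ring
  · apply prod_nonneg
    intro p hp
    have hpp := (mem_PW.1 hp).1.2
    apply mul_nonneg
    · rw [mul_one_div]
      exact hnn p hpp
    · have := hone p hpp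
      positivity
  · have := Vz_pos w
    positivity

end Pool.Agent.Q259.PK
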