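import Pool.Agent.Q259.PK.Tools

/-!
Sums of a dense set of primes and a thin set of primes: examples with few sums.
-/

set_option autoImplicit false

namespace Pool.Agent.Q259.PK

open Finset Filter Topology
open Pool.Agent.H373R2.T7 (pz mem_pz Vz lamz nuB PerB Vz_pos lamz_nonneg Vz_le_one)

/-- the product of the primes up to `v` -/
def Wp (v : ℕ) : ℕ := ∏ p ∈ pz v, p

lemma Wp_pos (v : ℕ) : 0 < Wp v := prod_pos fun _ hp => (mem_pz.1 hp).2.pos

lemma Wp_le (v : ℕ) : Wp v ≤ 4 ^ v := by
  have : Wp v = primorial v := by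
    unfold Wp primorial
    apply prod_congr _ fun _ _ => rfl
    ext p
    rw [mem_pz, mem_filter, mem_range]
    constructor
    · rintro ⟨h1, h2⟩
      exact ⟨by omega, h2⟩
    · rintro ⟨h1, h2⟩
      exact ⟨by omega, h2⟩
  rw [this]
  exact primorial_le_four_pow v

lemma dvd_Wp {p v : ℕ} (hp : p.Prime) : p ∣ Wp v ↔ p ≤ v := by
  unfold Wp
  rw [Prime.dvd_finset_prod_iff hp.prime]
  constructor
  · rintro ⟨r, hr, hd⟩
    rw [mem_pz] at hr
    rw [(Nat.prime_dvd_prime_iff_eq hp hr.2).1 hd]
    exact hr.1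
  · intro h
    exact ⟨p, mem_pz.2 ⟨h, hp⟩, dvd_rfl⟩

lemma Wp_factors (v : ℕ) : (Wp v).primeFactors = pz v := by
  ext p
  rw [Nat.mem_primeFactors, mem_pz]
  constructor
  · rintro ⟨h1, h2, _⟩
    exact ⟨(dvd_Wp h1).1 h2, h1⟩
  · rintro ⟨h1, h2⟩
    exact ⟨h2, (dvd_Wp h2).2 h1, (Wp_pos v).ne'⟩

lemma totient_Wp (v : ℕ) : (Nat.totient (Wp v) : ℝ) = Wp v * Vz v := by
  have h := Nat.totient_eq_mul_prod_factors (Wp v)
  rw [Wp_factors] at h
  have h2 : ((Nat.totient (Wp v) : ℚ) : ℝ) = ((Wp v * ∏ p ∈ pz v, (1 - (p : ℚ)⁻¹) : ℚ) : ℝ) := by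
    rw [h]
  push_cast at h2
  rw [h2]
  unfold Vz
  simp only [one_div]

/-- the set of sums -/
def sums (A B : Finset ℕ) : Finset ℕ := (A ×ˢ B).image (fun r => r.1 + r.2)

lemma sums_card {T Y v c : ℕ} (hc : c < Wp v) {B : Finset ℕ} (hB : B ⊆ pz Y)
    (hBc : ∀ b ∈ B, b % Wp v = c) :
    ((sums (pz T) B).card : ℝ) ≤ ((T : ℝ) + Y) * Vz v + Wp v + v * B.card := by
  set W := Wp v with hW
  have hW0 : 0 < W := Wp_pos v
  set S1 := (Icc 1 (T + Y)).filter (fun N => W.Coprime (N + (W - c))) with hS1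
  set S2 := (pz v ×ˢ B).image (fun r => r.1 + r.2) with hS2
  have hsub : sums (pz T) B ⊆ S1 ∪ S2 := by
    intro N hN
    obtain ⟨r, hr, rfl⟩ := mem_image.1 hN
    rw [mem_product] at hr
    have h1 := mem_pz.1 hr.1
    have h2 := mem_pz.1 (hB hr.2)
    rw [mem_union]
    by_cases hv : r.1 ≤ v
    · right
      exact mem_image.2 ⟨r, mem_product.2 ⟨mem_pz.2 ⟨hv, h1.2⟩, hr.2⟩, rfl⟩
    · left
      rw [hS1, mem_filter, mem_Icc]
      have h1p := h1.2.pos
      refine ⟨⟨by omega, by omega⟩, ?_⟩
      have h3 : r.1 + r.2 + (W - c) = r.1 + W * (r.2 / W + 1) := by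
        have h4 := Nat.mod_add_div r.2 W
        rw [hBc r.2 hr.2] at h4
        have h5 : W * (r.2 / W + 1) = W * (r.2 / W) + W := by ring
        omega
      rw [h3]
      rw [Nat.coprime_add_mul_left_right]
      rw [Nat.coprime_comm, Nat.Prime.coprime_iff_not_dvd h1.2, hW, dvd_Wp h1.2]
      exact hv
  have hc1 : (S1.card : ℝ) ≤ ((T : ℝ) + Y) * Vz v + W := by
    have h1 : S1.card ≤ ((Ico (W - c + 1) (W - c + 1 + (T + Y))).filter
        (fun M => W.Coprime M)).card := by
      apply card_le_card_of_injOn (fun N => N + (W - c))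
      · intro N hN
        rw [mem_coe, hS1, mem_filter, mem_Icc] at hN
        rw [mem_coe, mem_filter, mem_Ico]
        have hN2 : W - c + 1 ≤ N + (W - c) ∧ N + (W - c) < W - c + 1 + (T + Y) := by omega
        exact ⟨hN2, hN.2⟩
      · intro a _ b _ h
        simpa using h
    have h2 := Nat.Ico_filter_coprime_le (a := W) (W - c + 1) (T + Y) hW0.ne'
    have h3 : (S1.card : ℝ) ≤ Nat.totient W * (((T + Y) / W : ℕ) + 1) := by
      exact_mod_cast h1.trans h2
    have hWR : (0 : ℝ) < W := by exact_mod_cast hW0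
    have hV := Vz_pos v
    have hV1 := Vz_le_one v
    calc (S1.card : ℝ) ≤ Nat.totient W * (((T + Y) / W : ℕ) + 1) := h3
      _ ≤ (W * Vz v) * ((((T + Y : ℕ) : ℝ) / W) + 1) := by
          rw [hW, totient_Wp, ← hW]
          apply mul_le_mul_of_nonneg_left _ (by positivity)
          have := @Nat.cast_div_le ℝ _ _ _ (T + Y) W
          linarith
      _ = ((T : ℝ) + Y) * Vz v + W * Vz v := by
          push_cast
          field_simp
      _ ≤ _ := by nlinarith only [hV1, hWR]
  have hc2 : (S2.card : ℝ) ≤ v * B.card := by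
    have h1 : S2.card ≤ v * B.card := by
      refine card_image_le.trans ?_
      rw [card_product]
      exact Nat.mul_le_mul_right _ (Pool.Agent.H373R2.T7.card_pz_le v)
    exact_mod_cast h1
  have h1 := (card_le_card hsub).trans (card_union_le S1 S2)
  have h2 : ((sums (pz T) B).card : ℝ) ≤ S1.card + S2.card := by exact_mod_cast h1
  linarith

/-- squares of iterated logarithms against logarithms -/
lemma loglog_small (c : ℝ) : ∃ x0 : ℕ, ∀ x : ℕ, x0 ≤ x →
    c * Real.log (Real.log x) ^ 2 ≤ Real.log x := by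
  have h1 : ∀ᶠ L : ℝ in atTop, c * Real.log L ^ 2 ≤ L := by
    have h2 := (isLittleO_log_rpow_rpow_atTop ((2 : ℕ) : ℝ) (show (0 : ℝ) < 1 by norm_num)).bound
      (show (0 : ℝ) < 1 / (|c| + 1) by positivity)
    filter_upwards [h2, eventually_ge_atTop 1] with L h3 h4
    rw [Real.rpow_natCast, Real.rpow_one, Real.norm_of_nonneg (sq_nonneg _),
      Real.norm_of_nonneg (show (0 : ℝ) ≤ L by linarith), one_div, inv_mul_eq_div, le_div_iff₀ (by positivity)] at h3
    have h6 : c ≤ |c| := le_abs_self c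
    have h5 : 0 ≤ Real.log L ^ 2 := sq_nonneg _
    nlinarith
  obtain ⟨x0, h0⟩ := eventually_atTop.1 (log_tend.eventually h1)
  exact ⟨x0, fun x hx => h0 x hx⟩

/-- **Sets of primes with few sums.** -/
theorem upper (a : ℕ) (δ ε : ℝ) (hδ : 0 < δ) (hδ1 : δ ≤ 1) (hε : 0 < ε) (hε1 : ε ≤ 1) :
    ∃ y0 : ℝ, 1 ≤ y0 ∧ ∃ x0 : ℕ, ∀ x : ℕ, x0 ≤ x → ∀ α y : ℝ, δ ≤ α → α ≤ 1 → y0 ≤ y →
    y ≤ a * Real.log (Real.log x) → ∃ A B : Finset ℕ, A ⊆ pz x ∧ B ⊆ pz x ∧
    α * (pz x).card ≤ A.card ∧ Real.exp (-y) * (pz x).card ≤ B.card ∧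
    ((sums A B).card : ℝ) ≤
      (1 + ε) * (α * x * (Real.exp (-Real.eulerMascheroniConstant) / Real.log y)) := by
  set γ := Real.exp (-Real.eulerMascheroniConstant) with hγ
  have hγ0 : 0 < γ := Real.exp_pos _
  set ρ : ℝ := ε / 8 with hρ
  have hρ0 : 0 < ρ := by positivity
  have hρ1 : ρ ≤ 1 / 8 := by
    rw [hρ]
    linarith
  have hρδ : 0 < ρ * δ := by positivity
  set C : ℝ := Real.log (16 / (ρ * δ)) with hC
  have hC0 : 0 ≤ C := by
    apply Real.log_nonneg
    rw [le_div_iff₀ hρδ]
    nlinarith only [hρ1, hρ0, hδ, hδ1]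
  have hl2 := Real.log_two_gt_d9
  have hl2' := Real.log_two_lt_d9
  have hl4 : Real.log 4 = 2 * Real.log 2 := by
    rw [show (4 : ℝ) = 2 ^ 2 by norm_num, Real.log_pow]
    norm_num
  have hl4p : 0 < Real.log 4 := by linarith
  -- Mertens
  have hvz := vz_lim (fun y => ⌊(y - C) / Real.log 4⌋₊) (1 / 4) 1 (by norm_num) (by
    filter_upwards [eventually_ge_atTop (4 * (C + 2))] with y hy
    have hnn : 0 ≤ (y - C) / Real.log 4 := div_nonneg (by linarith) hl4p.le
    constructor
    · have h5 := Nat.lt_floor_add_one ((y - C) / Real.log 4)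
      have h6 : 1 / 4 * y + 1 ≤ (y - C) / Real.log 4 := by
        rw [le_div_iff₀ hl4p]
        nlinarith only [hl4, hl2, hl2', hy, hC0]
      linarith
    · refine (Nat.floor_le hnn).trans ?_
      rw [div_le_iff₀ hl4p]
      nlinarith only [hl4, hl2, hy, hC0])
  have hvz2 : ∀ᶠ y : ℝ in atTop, Vz ⌊(y - C) / Real.log 4⌋₊ * Real.log y < (1 + ρ) * γ :=
    hvz.eventually_lt_const (by nlinarith only [hρ0, hγ0])
  obtain ⟨y1, hy1⟩ := eventually_atTop.1 (hvz2.and (eventually_ge_atTop (4 * (C + 2))))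
  obtain ⟨x1, h1⟩ := pnt (ρ / 4) (by positivity)
  obtain ⟨x2, h2⟩ := pnt (1 / 2) (by norm_num)
  obtain ⟨x3, h3⟩ := log_pow_small (8 * (a + 1) / (ρ * δ)) 2
  obtain ⟨x4, h4⟩ := log_pow_small (a / (ρ * δ * γ)) (a + 1)
  obtain ⟨x5, h5⟩ := loglog_small (2 * a ^ 2 / (ρ * δ * γ))
  obtain ⟨x6, h6⟩ := eventually_atTop.1 (log_tend.eventually_ge_atTop (1 : ℝ))
  obtain ⟨x7, h7⟩ := exists_nat_gt ((x1 + x2 + 3 : ℝ) / (ρ * δ))
  refine ⟨max 1 y1, le_max_left _ _, x1 + x2 + x3 + x4 + x5 + x6 + x7 + 4, ?_⟩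
  intro x hx α y hα hα1 hy hya
  obtain ⟨hy2, hy3⟩ := hy1 y ((le_max_right _ _).trans hy)
  have hy0 : 0 < y := by linarith
  have hlogy : 0 < Real.log y := Real.log_pos (by linarith)
  have hx0 : (0 : ℝ) < x := by exact_mod_cast (show 0 < x by omega)
  have hx1 : (1 : ℝ) ≤ x := by exact_mod_cast (show 1 ≤ x by omega)
  have hL1 := h6 x (by omega)
  have hα0 : 0 < α := lt_of_lt_of_le hδ hα
  have hρδx : (x1 + x2 + 3 : ℝ) < ρ * δ * x := by
    have h8 : (x7 : ℝ) ≤ x := by exact_mod_cast (show x7 ≤ x by omega)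
    have h9 : (x1 + x2 + 3 : ℝ) / (ρ * δ) < x := by linarith
    rw [div_lt_iff₀ hρδ] at h9
    linarith
  have hsqx : Real.sqrt x ≤ x := by
    rw [Real.sqrt_le_left hx0.le]
    nlinarith only [hx1]
  set T : ℕ := min x ⌈(1 + ρ) * (α * x)⌉₊ with hT
  set Y : ℕ := ⌊ρ * δ * x⌋₊ with hY
  set v : ℕ := ⌊(y - C) / Real.log 4⌋₊ with hv
  set W := Wp v with hW
  have hW0 : 0 < W := Wp_pos v
  have hWR : (0 : ℝ) < W := by exact_mod_cast hW0
  have hTx : T ≤ x := min_le_left _ _
  have hαx : 0 < α * x := by positivity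
  have hTR : (T : ℝ) ≤ (1 + ρ) * (α * x) + 1 := by
    have h8 : T ≤ ⌈(1 + ρ) * (α * x)⌉₊ := min_le_right _ _
    have h9 : (T : ℝ) ≤ ⌈(1 + ρ) * (α * x)⌉₊ := by exact_mod_cast h8
    have h10 := Nat.ceil_lt_add_one (show 0 ≤ (1 + ρ) * (α * x) by positivity)
    linarith
  have hYR : (Y : ℝ) ≤ ρ * δ * x := Nat.floor_le (by positivity)
  have hYR2 : ρ * δ * x < Y + 1 := Nat.lt_floor_add_one _
  have hYx : Y ≤ x := by
    have : (Y : ℝ) ≤ x := by
      have h8 : ρ * δ ≤ 1 := by nlinarith only [hρ0, hρ1, hδ, hδ1]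
      have h9 : ρ * δ * x ≤ 1 * x := mul_le_mul_of_nonneg_right h8 hx0.le
      linarith
    exact_mod_cast this
  have hvnn : 0 ≤ (y - C) / Real.log 4 := div_nonneg (by linarith) hl4p.le
  have hvle : (v : ℝ) ≤ (y - C) / Real.log 4 := Nat.floor_le hvnn
  have hvy : (v : ℝ) ≤ y := by
    refine hvle.trans ?_
    rw [div_le_iff₀ hl4p]
    nlinarith only [hl4, hl2, hy0, hC0]
  have hWexp : (W : ℝ) ≤ Real.exp (y - C) := by
    calc (W : ℝ) ≤ (4 : ℝ) ^ v := by exact_mod_cast Wp_le v
      _ = Real.exp (v * Real.log 4) := by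
          rw [Real.exp_nat_mul, Real.exp_log (by norm_num)]
      _ ≤ _ := by
          apply Real.exp_le_exp.2
          rwa [← le_div_iff₀ hl4p]
  have hlla : y ≤ a * Real.log x := by
    refine hya.trans ?_
    apply mul_le_mul_of_nonneg_left _ (Nat.cast_nonneg _)
    exact Real.log_le_self (by linarith)
  -- the sets
  set s := (pz Y).filter (fun p => v < p) with hs
  obtain ⟨c, hct, hcB⟩ := exists_le_card_fiber_of_nsmul_le_card_of_maps_to
    (s := s) (t := (range W).filter (fun r => W.Coprime r)) (f := fun p => p % W)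
    (b := (s.card : ℝ) / Nat.totient W) (by
      intro p hp
      rw [hs, mem_filter, mem_pz] at hp
      rw [mem_filter, mem_range]
      refine ⟨Nat.mod_lt _ hW0, ?_⟩
      have h8 : W.Coprime p := by
        rw [Nat.coprime_comm, Nat.Prime.coprime_iff_not_dvd hp.1.2, hW, dvd_Wp hp.1.2]
        omega
      rw [Nat.coprime_iff_gcd_eq_one, Nat.gcd_comm, ← Nat.gcd_rec]
      exact h8) (by
      rw [← card_pos, ← Nat.totient_eq_card_coprime]
      exact Nat.totient_pos.2 hW0) (by
      rw [← Nat.totient_eq_card_coprime, nsmul_eq_mul]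
      have : (0 : ℝ) < Nat.totient W := by exact_mod_cast Nat.totient_pos.2 hW0
      rw [mul_div_cancel₀ _ this.ne'])
  set B := s.filter (fun p => p % W = c) with hB
  have hBY : B ⊆ pz Y := (filter_subset _ _).trans (filter_subset _ _)
  have hYsub : pz Y ⊆ pz x := by
    intro p hp
    rw [mem_pz] at hp ⊢
    exact ⟨hp.1.trans hYx, hp.2⟩
  have hBx : B ⊆ pz x := hBY.trans hYsub
  have hcW : c < W := by
    rw [mem_filter, mem_range] at hct
    exact hct.1
  have hAx : pz T ⊆ pz x := by
    intro p hp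
    rw [mem_pz] at hp ⊢
    exact ⟨hp.1.trans hTx, hp.2⟩
  have hPup : ((pz x).card : ℝ) ≤ 2 * (x / Real.log x) := by
    have h8 := (h2 x (by omega)).2
    have : 0 ≤ x / Real.log x := by positivity
    linarith
  refine ⟨pz T, B, hAx, hBx, ?_, ?_, ?_⟩
  · -- the size of `A`
    rcases le_or_gt x ⌈(1 + ρ) * (α * x)⌉₊ with h8 | h8
    · have : T = x := min_eq_left h8
      rw [this]
      have h9 : (0 : ℝ) ≤ (pz x).card := Nat.cast_nonneg _
      nlinarith only [h9, hα1]
    · have hTe : T = ⌈(1 + ρ) * (α * x)⌉₊ := min_eq_right h8.le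
      have h9 : (1 + ρ) * (α * x) ≤ T := by
        rw [hTe]
        exact Nat.le_ceil _
      have h10 : ρ * δ * x ≤ (1 + ρ) * (α * x) := by
        have h11 : ρ * δ ≤ (1 + ρ) * α := by nlinarith only [hα, hρ0, hδ, hα0]
        calc ρ * δ * x ≤ (1 + ρ) * α * x := mul_le_mul_of_nonneg_right h11 hx0.le
          _ = _ := by ring
      have h11 : (x1 + x2 + 3 : ℝ) < T := by linarith
      have h12 : x1 + x2 + 3 < T := by exact_mod_cast h11
      have h13 := (h1 T (by omega)).1
      have h14 := (h1 x (by omega)).2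
      have hlogT : 0 < Real.log T := Real.log_pos (by exact_mod_cast (show 1 < T by omega))
      have hlogTx : Real.log T ≤ Real.log x := by
        apply Real.log_le_log
        · exact_mod_cast (show 0 < T by omega)
        · exact_mod_cast hTx
      have h15 : (1 + ρ) * (α * x) / Real.log x ≤ T / Real.log T := by
        rw [div_le_div_iff₀ (by linarith) hlogT]
        have : 0 ≤ (1 + ρ) * (α * x) := by positivity
        nlinarith only [this, h9, hlogTx, hlogT, hL1]
      calc α * (pz x).card ≤ α * ((1 + ρ / 4) * (x / Real.log x)) :=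
            mul_le_mul_of_nonneg_left h14 hα0.le
        _ = (1 + ρ / 4) * (α * x / Real.log x) := by ring
        _ ≤ ((1 - ρ / 4) * (1 + ρ)) * (α * x / Real.log x) := by
            apply mul_le_mul_of_nonneg_right _ (by positivity)
            nlinarith only [hρ0, hρ1]
        _ = (1 - ρ / 4) * ((1 + ρ) * (α * x) / Real.log x) := by ring
        _ ≤ (1 - ρ / 4) * (T / Real.log T) := by
            apply mul_le_mul_of_nonneg_left h15
            linarith
        _ ≤ _ := h13
  · -- the size of `B`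
    have h8 : x1 + x2 + 2 ≤ Y := by
      have : (x1 + x2 + 2 : ℝ) < Y := by linarith
      exact_mod_cast this.le
    have h9 := (h2 Y (by omega)).1
    have hlogY : 0 < Real.log Y := Real.log_pos (by exact_mod_cast (show 1 < Y by omega))
    have hlogYx : Real.log Y ≤ Real.log x := by
      apply Real.log_le_log
      · exact_mod_cast (show 0 < Y by omega)
      · exact_mod_cast hYx
    have h10 : ρ * δ / 4 * (x / Real.log x) ≤ (pz Y).card := by
      refine le_trans ?_ h9
      have h11 : ρ * δ * x / 2 ≤ Y := by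
        have : (0 : ℝ) ≤ x1 + x2 := by positivity
        linarith
      have h12 : ρ * δ * x / 2 / Real.log x ≤ Y / Real.log Y := by
        rw [div_le_div_iff₀ (by linarith) hlogY]
        have : 0 ≤ ρ * δ * x / 2 := by positivity
        nlinarith only [this, h11, hlogYx, hlogY, hL1]
      calc ρ * δ / 4 * (x / Real.log x) = (1 - 1 / 2) * (ρ * δ * x / 2 / Real.log x) := by ring
        _ ≤ _ := by
            apply mul_le_mul_of_nonneg_left h12
            norm_num
    have h11 : (v : ℝ) ≤ ρ * δ / 8 * (x / Real.log x) := by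
      have h12 := h3 x (by omega)
      have h13 : y * (8 / (ρ * δ)) * Real.log x ≤ x := by
        calc y * (8 / (ρ * δ)) * Real.log x ≤ ((a + 1) * Real.log x) * (8 / (ρ * δ)) * Real.log x := by
              gcongr
              refine hlla.trans ?_
              apply mul_le_mul_of_nonneg_right _ (by linarith)
              linarith
          _ = 8 * (a + 1) / (ρ * δ) * Real.log x ^ 2 := by ring
          _ ≤ _ := h12.trans hsqx
      refine hvy.trans ?_
      rw [show ρ * δ / 8 * (x / Real.log x) = (ρ * δ / 8 * x) / Real.log x by ring,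
        le_div_iff₀ (by linarith)]
      calc y * Real.log x = ρ * δ / 8 * (y * (8 / (ρ * δ)) * Real.log x) := by
            field_simp
        _ ≤ _ := mul_le_mul_of_nonneg_left h13 (by positivity)
    have h12 : ρ * δ / 8 * (x / Real.log x) ≤ s.card := by
      have h13 : pz Y ⊆ s ∪ pz v := by
        intro p hp
        rw [mem_union, hs, mem_filter, mem_pz (z := v)]
        by_cases h : v < p
        · exact Or.inl ⟨hp, h⟩
        · exact Or.inr ⟨by omega, (mem_pz.1 hp).2⟩
      have h14 := (card_le_card h13).trans (card_union_le _ _)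
      have h15 := Pool.Agent.H373R2.T7.card_pz_le v
      have h16 : ((pz Y).card : ℝ) ≤ s.card + v := by exact_mod_cast h14.trans (by omega)
      have h17 : ρ * δ / 4 * (x / Real.log x) = ρ * δ / 8 * (x / Real.log x) +
          ρ * δ / 8 * (x / Real.log x) := by ring
      linarith
    have htot : (Nat.totient W : ℝ) ≤ W := by exact_mod_cast Nat.totient_le W
    have htot0 : (0 : ℝ) < Nat.totient W := by exact_mod_cast Nat.totient_pos.2 hW0
    calc Real.exp (-y) * (pz x).card ≤ Real.exp (-y) * (2 * (x / Real.log x)) :=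
          mul_le_mul_of_nonneg_left hPup (Real.exp_pos _).le
      _ = (ρ * δ / 8 * (x / Real.log x)) / Real.exp (y - C) := by
          rw [Real.exp_sub, hC, Real.exp_log (by positivity), Real.exp_neg]
          have := (Real.exp_pos y).ne'
          field_simp
          ring
      _ ≤ s.card / Real.exp (y - C) := by
          apply div_le_div_of_nonneg_right h12 (Real.exp_pos _).le
      _ ≤ s.card / Nat.totient W := by
          apply div_le_div_of_nonneg_left (Nat.cast_nonneg _) htot0
          linarith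
      _ ≤ B.card := hcB
  · -- the number of sums
    have h8 := sums_card (T := T) (Y := Y) (v := v) hcW hBY (by
      intro b hb
      rw [hB, mem_filter] at hb
      exact hb.2)
    rw [← hW] at h8
    have hV := Vz_pos v
    have h9 : Vz v ≤ (1 + ρ) * (γ / Real.log y) := by
      rw [← mul_div_assoc, le_div_iff₀ hlogy]
      exact hy2.le
    have hg : 0 < γ / Real.log y := by positivity
    have h10 : ((T : ℝ) + Y) * Vz v ≤ (1 + 5 * ρ) * (α * x * (γ / Real.log y)) := by
      have h11 : (T : ℝ) + Y ≤ (1 + 3 * ρ) * (α * x) := by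
        have h12 : ρ * δ * x ≤ ρ * (α * x) := by
          calc ρ * δ * x ≤ ρ * α * x := by gcongr
            _ = _ := by ring
        have h13 : (0 : ℝ) ≤ x1 + x2 := by positivity
        linarith
      calc ((T : ℝ) + Y) * Vz v ≤ ((1 + 3 * ρ) * (α * x)) * ((1 + ρ) * (γ / Real.log y)) := by
            gcongr
        _ = ((1 + 3 * ρ) * (1 + ρ)) * (α * x * (γ / Real.log y)) := by ring
        _ ≤ _ := by
            apply mul_le_mul_of_nonneg_right _ (by positivity)
            nlinarith only [hρ0, hρ1]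
    have hρδγ : 0 < ρ * δ * γ := by positivity
    have hlogyy : Real.log y ≤ y := Real.log_le_self hy0.le
    have hδα : ρ * δ * γ * x ≤ ρ * (α * x * γ) := by
      calc ρ * δ * γ * x ≤ ρ * α * γ * x := by gcongr
        _ = _ := by ring
    have h11 : (W : ℝ) ≤ ρ * (α * x * (γ / Real.log y)) := by
      have h12 := h4 x (by omega)
      have h13 : (W : ℝ) ≤ Real.log x ^ a := by
        calc (W : ℝ) ≤ Real.exp (y - C) := hWexp
          _ ≤ Real.exp (a * Real.log (Real.log x)) := by
              apply Real.exp_le_exp.2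
              linarith
          _ = _ := by
              rw [Real.exp_nat_mul, Real.exp_log (by linarith)]
      have h14 : (W : ℝ) * Real.log y ≤ ρ * (α * x * γ) := by
        refine le_trans ?_ hδα
        calc (W : ℝ) * Real.log y ≤ Real.log x ^ a * (a * Real.log x) := by
              gcongr
              linarith
          _ = ρ * δ * γ * (a / (ρ * δ * γ) * Real.log x ^ (a + 1)) := by
              field_simp
              ring
          _ ≤ ρ * δ * γ * x := by
              apply mul_le_mul_of_nonneg_left (h12.trans hsqx) hρδγ.le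
      calc (W : ℝ) = W * Real.log y / Real.log y := by field_simp
        _ ≤ ρ * (α * x * γ) / Real.log y := by gcongr
        _ = _ := by ring
    have h15 : (v : ℝ) * B.card ≤ ρ * (α * x * (γ / Real.log y)) := by
      have h16 := h5 x (by omega)
      have h17 : (B.card : ℝ) ≤ 2 * (x / Real.log x) := by
        refine le_trans ?_ hPup
        exact_mod_cast card_le_card hBx
      have h18 : (v : ℝ) * B.card * Real.log y ≤ ρ * (α * x * γ) := by
        refine le_trans ?_ hδα
        have h19 : 0 ≤ a * Real.log (Real.log x) := by linarith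
        calc (v : ℝ) * B.card * Real.log y
            ≤ (a * Real.log (Real.log x)) * (2 * (x / Real.log x)) * (a * Real.log (Real.log x)) := by
              have h20 : (v : ℝ) ≤ a * Real.log (Real.log x) := by linarith
              have h21 : Real.log y ≤ a * Real.log (Real.log x) := by linarith
              gcongr
          _ = ρ * δ * γ * x * ((2 * a ^ 2 / (ρ * δ * γ) * Real.log (Real.log x) ^ 2) / Real.log x) := by
              field_simp
          _ ≤ ρ * δ * γ * x * 1 := by
              apply mul_le_mul_of_nonneg_left _ (by positivity)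
              rw [div_le_one (by linarith)]
              exact h16
          _ = _ := mul_one _
      calc (v : ℝ) * B.card = v * B.card * Real.log y / Real.log y := by field_simp
        _ ≤ ρ * (α * x * γ) / Real.log y := by gcongr
        _ = _ := by ring
    calc ((sums (pz T) B).card : ℝ) ≤ ((T : ℝ) + Y) * Vz v + W + v * B.card := h8
      _ ≤ (1 + 5 * ρ) * (α * x * (γ / Real.log y)) + ρ * (α * x * (γ / Real.log y)) +
          ρ * (α * x * (γ / Real.log y)) := by linarith
      _ = (1 + 7 * ρ) * (α * x * (γ / Real.log y)) := by ring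
      _ ≤ _ := by
          apply mul_le_mul_of_nonneg_right _ (by positivity)
          rw [hρ]
          linarith

end Pool.Agent.Q259.PK
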